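import Pool.Agent.H62.LP.T4

/-!
# Row FSC: the finite size criterion
-/

set_option autoImplicit false

open MeasureTheory ProbabilityTheory Filter Topology
open scoped ENNReal NNReal

namespace Pool.Agent.H96.LP

open Pool.Agent.H62.LP

lemma sc_emb_sub (β : ℕ) (y y' : Vt 2) (i : Fin 2) :
    β * ((y - y') i).natAbs ≤ nm (sc β (emb y) - sc β (emb y')) := by
  have key : ∀ j : Fin 3, ((sc β (emb y) - sc β (emb y')) j).natAbs ≤
      nm (sc β (emb y) - sc β (emb y')) := fun j =>
    Finset.le_sup (f := fun i => ((sc β (emb y) - sc β (emb y')) i).natAbs) (Finset.mem_univ j)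
  have e : ∀ a b : ℤ, β * (a - b).natAbs = ((β : ℤ) * a - β * b).natAbs := by
    intro a b
    rw [← mul_sub, Int.natAbs_mul, Int.natAbs_natCast]
  fin_cases i
  · have h := key 0
    simp only [Pi.sub_apply, sc, emb, Matrix.cons_val_zero] at h
    simp only [Pi.sub_apply]
    exact (e _ _).trans_le h
  · have h := key 1
    simp only [Pi.sub_apply, sc, emb, Matrix.cons_val_one] at h
    simp only [Pi.sub_apply]
    exact (e _ _).trans_le h

lemma far_sc {β K₁ : ℕ} (hβ : 1 ≤ β) {y y' : Vt 2} (h : K₁ < nm (y - y')) :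
    K₁ * β < nm (sc β (emb y) - sc β (emb y')) := by
  unfold nm at h
  rw [Finset.lt_sup_iff] at h
  obtain ⟨i, -, hi⟩ := h
  have h1 := sc_emb_sub β y y' i
  nlinarith

lemma sc_inj {β : ℕ} (hβ : 1 ≤ β) {y y' : Vt 2} (h : sc β (emb y) = sc β (emb y')) : y = y' := by
  have h1 : ∀ i : Fin 2, ((y - y') i).natAbs = 0 := by
    intro i
    have h2 := sc_emb_sub β y y' i
    rw [h, sub_self] at h2
    have h3 : nm (0 : V3) = 0 := by
      apply le_antisymm _ (Nat.zero_le _)
      unfold nm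
      apply Finset.sup_le
      intro j _
      simp
    rw [h3] at h2
    rcases Nat.mul_eq_zero.mp (Nat.le_zero.mp h2) with h4 | h4
    · omega
    · exact h4
  funext i
  have := h1 i
  simp only [Pi.sub_apply] at this
  omega

lemma meas_tot : Measurable tot := by
  rw [measurable_pi_iff]
  intro c
  have h1 : Measurable (fun ω : Om => ω.1 c) := (measurable_pi_apply c).comp measurable_fst
  have h2 : ∀ j : Fin 20, Measurable (fun ω : Om => ω.2 j c) := fun j =>
    (measurable_pi_apply c).comp ((measurable_pi_apply j).comp measurable_snd)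
  have h3 : Measurable (fun ω : Om => ∑ j : Fin 20, ω.2 j c) :=
    Finset.measurable_sum Finset.univ (fun j _ => h2 j)
  exact h1.add h3

theorem pf_FSC (hLOC : T_LOC) (hGLU : T_GLU) (hBLK : T_BLK) (hCSL : T_CSL) (hGBM : T_GBM)
    (hGBP : T_GBP) (hGBI : T_GBI) (hGCL : T_GCL) (hTOT : T_TOT) (hOPN : T_OPN) (hCLM : T_CLM)
    (hCZR : T_CZR) : T_FSC := by
  classical
  intro α ε hε
  obtain ⟨K, C, hK, hC⟩ := hLOC
  have hHLC : HLC K C := ⟨hK, hC⟩
  obtain ⟨M', hM', hG⟩ := hGLU
  have hε20 : 0 < ε / 20 := by positivity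
  obtain ⟨p, hp0, hp1, hp⟩ := hG (ε / 20) hε20
  have hHGL : HGL M' (ε / 20) p := ⟨hp0, hp1, hp⟩
  obtain ⟨δ, hδ, hB⟩ := hBLK (2 * (K + 2))
  obtain ⟨β₀, hβ₀⟩ := hGBP M' (ε / 20) p hHGL K C hHLC α δ hδ
  set β : ℕ := β₀ + 3 + 2 * M' with hβ
  obtain ⟨η, hη, hgood⟩ := hβ₀ β (by omega)
  refine ⟨β, η, by omega, hη, ?_⟩
  intro n hn hcr
  have hP1 : ∀ a : ℝ≥0, IsProbabilityMeasure (soup 3 a) := by
    intro a
    unfold soup
    infer_instance
  have hP2 : IsProbabilityMeasure (PP α (ε / 20)) := by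
    unfold PP
    infer_instance
  have hncr : soup 3 α {N | ¬ Cross n (β * n) N} ≤ ENNReal.ofReal η := by
    have h1 : {N : Cycle (Vt 3) → ℕ | ¬ Cross n (β * n) N} = {N | Cross n (β * n) N}ᶜ := rfl
    rw [h1, measure_compl ((hCLM 3).2 n (β * n)) (measure_ne_top _ _), measure_univ,
      tsub_le_iff_right]
    calc (1 : ℝ≥0∞) = ENNReal.ofReal (η + (1 - η)) := by simp
      _ ≤ ENNReal.ofReal η + ENNReal.ofReal (1 - η) := ENNReal.ofReal_add_le
      _ ≤ _ := by gcongr
  obtain ⟨D, hD⟩ := hCSL n β K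
  have hKβ : 2 * M' ≤ K * β := by nlinarith
  have hβ1 : 1 ≤ β := by omega
  have hbad := hgood n hn hncr D hD
  have hblk := hB Om (PP α (ε / 20)) (fun ω => {y | ¬ GoodB M' n β D (sc β (emb y)) ω}) (by
      intro y
      exact ((hGBM M' n β K D hD hKβ (sc β (emb y))).1).compl) (by
      intro Y hY
      have h1 := hGBI M' n β K D hn hβ1 hD hKβ α (ε / 20) (Y.image (fun y => sc β (emb y))) (by
        intro v hv v' hv' hne
        rw [Finset.mem_image] at hv hv'
        obtain ⟨y, hy, rfl⟩ := hv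
        obtain ⟨y', hy', rfl⟩ := hv'
        exact far_sc hβ1 (hY y hy y' hy' (fun h => hne (by rw [h]))))
      have h2 : {ω : Om | (Y : Set (Vt 2)) ⊆ {y | ¬ GoodB M' n β D (sc β (emb y)) ω}} =
          {ω | ∀ v ∈ Y.image (fun y => sc β (emb y)), ¬ GoodB M' n β D v ω} := by
        ext ω
        simp only [Set.mem_ofPred_eq, Finset.mem_image]
        constructor
        · rintro h v ⟨y, hy, rfl⟩
          exact h hy
        · intro h y hy
          exact h _ ⟨y, hy, rfl⟩
      rw [h2, h1, Finset.prod_image (fun y _ y' _ h => sc_inj hβ1 h)]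
      calc ∏ y ∈ Y, PP α (ε / 20) {ω | ¬ GoodB M' n β D (sc β (emb y)) ω} ≤
          ∏ y ∈ Y, ENNReal.ofReal δ := Finset.prod_le_prod' (fun y _ => hbad _)
        _ = ENNReal.ofReal (δ ^ Y.card) := by
            rw [Finset.prod_const, ENNReal.ofReal_pow hδ.le])
  have htm := meas_tot
  have h1 : (1 / 2 : ℝ≥0∞) ≤ soup 3 (α + ε) {N | ∃ u, {w | Conn (sp N) u w}.Infinite} := by
    have h2 : soup 3 (α + ε) = (PP α (ε / 20)).map tot := by
      rw [hTOT]
      congr 2
      rw [mul_div_cancel₀]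
      norm_num
    rw [h2]
    refine le_trans ?_ (Measure.le_map_apply htm.aemeasurable _)
    refine hblk.trans (measure_mono ?_)
    intro ω hω
    exact hGCL M' n β K D hn (by omega) hD ω hω
  apply hCZR
  refine lt_of_lt_of_le (by norm_num : (0 : ℝ≥0∞) < 1 / 2) (h1.trans ?_)
  apply measure_mono_ae
  filter_upwards [hOPN (α + ε)] with N hN hu
  obtain ⟨u, hu⟩ := hu
  exact ⟨u, hu.mono (fun w hw => hN u w hw)⟩

end Pool.Agent.H96.LP
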