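import Pool.Agent.H96.LP.Sa

/-!
# Row STP, part 2: the events at the small scales
-/

set_option autoImplicit false

open MeasureTheory ProbabilityTheory Filter Topology
open scoped ENNReal NNReal

namespace Pool.Agent.H96.LP

open Pool.Agent.H62.LP

instance ctLp : Countable (Cycle V3) := by
  unfold Cycle
  exact Quotient.countable

open Classical in
/-- The function of a fat loop. -/
noncomputable def wf (κ : ℝ≥0) (s : ℤ) (z : V3) (n : ℕ) (c : Lp) : V3 → ℝ≥0∞ :=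
  if h : Fat κ n {x | x ∈ c ∧ x - z ∈ Rg s n} then h.choose else fun _ => 0

lemma wf_spec {κ : ℝ≥0} {s : ℤ} {z : V3} {n : ℕ} {c : Lp}
    (h : Fat κ n {x | x ∈ c ∧ x - z ∈ Rg s n}) :
    FatW κ n {x | x ∈ c ∧ x - z ∈ Rg s n} (wf κ s z n c) := by
  unfold wf
  rw [dif_pos h]
  exact h.choose_spec

/-- The function of the selected loop. -/
noncomputable def wo (κ : ℝ≥0) (s : ℤ) (z : V3) (n : ℕ) : Option Lp → V3 → ℝ≥0∞
  | none => fun _ => 0
  | some c => wf κ s z n c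

/-- The selection of a fat loop. -/
structure Sel (M : ℕ) (κ : ℝ≥0) (s : ℤ) (z : V3) (n : ℕ) (K : Set V3)
    (D : (Lp → ℕ) → Option Lp) : Prop where
  meas : ∀ c, MeasurableSet {N | D N = some c}
  some : ∀ N c, D N = some c → FatAt M κ s z n K (sp N) c
  none : ∀ N, D N = none → ∀ c, ¬ FatAt M κ s z n K (sp N) c

lemma exists_sel (hSEL : T_SEL) (hFME : T_FME) (M : ℕ) (κ : ℝ≥0) (s : ℤ) (z : V3) (n : ℕ)
    (K : Set V3) : ∃ D, Sel M κ s z n K D := by
  obtain ⟨D, h1, h2, h3, -⟩ := hSEL (Lp → ℕ) Lp (fun c => {N | FatAt M κ s z n K (sp N) c})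
    (fun c => (hFME M κ s z n K).1 c)
  exact ⟨D, h1, h2, h3⟩

lemma sel_spec {M : ℕ} {κ : ℝ≥0} {s : ℤ} {z : V3} {n : ℕ} {K : Set V3}
    {D : (Lp → ℕ) → Option Lp} (h : Sel M κ s z n K D) {N : Lp → ℕ}
    (hN : FatEv M κ s z n K (sp N)) :
    ∃ c, FatAt M κ s z n K (sp N) c ∧
      FatW κ n {x | x ∈ c ∧ x - z ∈ Rg s n} (wo κ s z n (D N)) := by
  rcases hD : D N with _ | c
  · obtain ⟨c, hc⟩ := hN
    exact absurd hc (h.none N hD c)
  · have h1 := h.some N c hD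
    exact ⟨c, h1, wf_spec h1.2.1⟩

/-- The function of the selected loop lives near the centre. -/
lemma sel_supp {M : ℕ} {κ : ℝ≥0} {s : ℤ} (hs : s = 1 ∨ s = -1) {z : V3} {n : ℕ} {K : Set V3}
    {D : (Lp → ℕ) → Option Lp} (h : Sel M κ s z n K D) {N : Lp → ℕ}
    (hN : FatEv M κ s z n K (sp N)) {x : V3} (hx : wo κ s z n (D N) x ≠ 0) :
    nm (x - z) ≤ 9 * n := by
  obtain ⟨c, -, h1, -⟩ := sel_spec h hN
  by_contra hne
  apply hx
  apply h1
  rintro ⟨-, h2⟩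
  exact hne (rg_le hs h2).1

lemma meas_opt {Ω : Type} [MeasurableSpace Ω] {D D' : Ω → Option Lp}
    (hD : ∀ c, MeasurableSet {ω | D ω = some c}) (hD' : ∀ c, MeasurableSet {ω | D' ω = some c})
    (F : Option Lp → Option Lp → ℝ≥0∞) : Measurable (fun ω => F (D ω) (D' ω)) := by
  have key : ∀ E : Ω → Option Lp, (∀ c, MeasurableSet {ω | E ω = some c}) →
      ∀ o, MeasurableSet {ω | E ω = o} := by
    intro E hE o
    rcases o with _ | c
    · have : {ω | E ω = none} = (⋃ c, {ω | E ω = some c})ᶜ := by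
        ext ω
        simp only [Set.mem_ofPred_eq, Set.mem_compl_iff, Set.mem_iUnion, not_exists]
        constructor
        · intro h c hc
          rw [h] at hc
          exact absurd hc (by simp)
        · intro h
          rcases hω : E ω with _ | c
          · rfl
          · exact absurd hω (h c)
      rw [this]
      exact (MeasurableSet.iUnion hE).compl
    · exact hE c
  let : MeasurableSpace (Option Lp × Option Lp) := ⊤
  have h : Measurable (fun ω => (D ω, D' ω)) := by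
    apply measurable_to_countable'
    rintro ⟨o, o'⟩
    have : (fun ω => (D ω, D' ω)) ⁻¹' {(o, o')} = {ω | D ω = o} ∩ {ω | D' ω = o'} := by
      ext ω
      simp [Prod.ext_iff]
    rw [this]
    exact (key D hD o).inter (key D' hD' o')
  have h2 : Measurable (fun p : Option Lp × Option Lp => F p.1 p.2) := measurable_from_top
  exact h2.comp h

/-- The geometry. -/
structure Geo (M I n : ℕ) (N m : ℕ → ℕ) (z : V3) (K : Set V3) (Z : ℕ → ℕ → V3) : Prop where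
  hM : 40 ≤ M
  pos : ∀ i, i ≤ I → 1 ≤ m i
  dec : ∀ i j, i < j → j ≤ I → m j < m i
  le : ∀ i, 1 ≤ i → i ≤ I → 3 * M * m i ≤ n
  up : ∀ i, 1 ≤ i → i ≤ I → N i * (3 * M * m i) ≤ n
  mem : ∀ i k, 1 ≤ i → i ≤ I → k ≤ N i → Z i k ∈ K
  dist : ∀ i k, 1 ≤ i → i ≤ I → k ≤ N i → nm (Z i k - z) = 3 * M * m i * k

lemma Geo.dist2 {M I n : ℕ} {N m : ℕ → ℕ} {z : V3} {K : Set V3} {Z : ℕ → ℕ → V3}
    (G : Geo M I n N m z K Z) {i k j l : ℕ} (h1 : 1 ≤ i) (h2 : i ≤ I) (h3 : k ≤ N i)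
    (h4 : 1 ≤ j) (h5 : j ≤ I) (h6 : l ≤ N j) :
    ((3 * M * m i * k : ℤ) - 3 * M * m j * l).natAbs ≤ nm (Z i k - Z j l) := by
  have a1 := G.dist i k h1 h2 h3
  have a2 := G.dist j l h4 h5 h6
  have a3 := nm_tri (Z i k) (Z j l) z
  have a4 := nm_tri (Z j l) (Z i k) z
  rw [nm_comm (Z j l) (Z i k)] at a4
  have b1 : ((3 * M * m i * k : ℤ)) = ((3 * M * m i * k : ℕ) : ℤ) := by push_cast; ring
  have b2 : ((3 * M * m j * l : ℤ)) = ((3 * M * m j * l : ℕ) : ℤ) := by push_cast; ring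
  rw [b1, b2]
  omega

/-- Points of the fat loops are inside the ball of radius `2n`. -/
lemma Geo.inside {M I n : ℕ} {N m : ℕ → ℕ} {z : V3} {K : Set V3} {Z : ℕ → ℕ → V3}
    (G : Geo M I n N m z K Z) {i k : ℕ} (h1 : 1 ≤ i) (h2 : i ≤ I) (h3 : k ≤ N i) {x : V3}
    (hx : nm (x - Z i k) ≤ M * m i) : nm (x - z) ≤ 2 * n := by
  have a1 := G.dist i k h1 h2 h3
  have a2 := G.up i h1 h2
  have a3 := G.le i h1 h2
  have a4 := nm_tri x (Z i k) z
  have a5 : 3 * M * m i * k ≤ N i * (3 * M * m i) := by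
    rw [mul_comm (N i)]
    exact Nat.mul_le_mul_left _ h3
  nlinarith

/-- The events. -/
def Ae (M : ℕ) (κ : ℝ≥0) (s : ℤ) (K : Set V3) (m : ℕ → ℕ) (Z : ℕ → ℕ → V3) (i k : ℕ) :
    Set (Lp → ℕ) := {N | FatEv M κ s (Z i k) (m i) K (sp N)}

/-- The mutual energies. -/
noncomputable def Xe (κ : ℝ≥0) (s : ℤ) (m : ℕ → ℕ) (Z : ℕ → ℕ → V3)
    (D : ℕ → ℕ → (Lp → ℕ) → Option Lp) (i k j l : ℕ) (N : Lp → ℕ) : ℝ≥0∞ :=
  erg (wo κ s (Z i k) (m i) (D i k N)) (wo κ s (Z j l) (m j) (D j l N))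

theorem events (hGTR : T_GTR) (hIND : T_IND) (hFME : T_FME) {C₀ : ℝ≥0} (hG : HGU C₀)
    {M I n : ℕ} {N m : ℕ → ℕ} {z : V3} {K : Set V3} {Z : ℕ → ℕ → V3}
    (G : Geo M I n N m z K Z) {κ : ℝ≥0} {ε : ℝ≥0} {s : ℤ} (hs : s = 1 ∨ s = -1)
    {D : ℕ → ℕ → (Lp → ℕ) → Option Lp} (hD : ∀ i k, Sel M κ s (Z i k) (m i) K (D i k))
    {a : ℝ≥0}
    (hP : ∀ i k, 1 ≤ i → i ≤ I → 1 ≤ k → k ≤ N i → (a : ℝ≥0∞) ≤ soup 3 ε (Ae M κ s K m Z i k)) :
    Events (soup 3 ε) M I N m a κ C₀ (Ae M κ s K m Z) (Xe κ s m Z D) := by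
  have hmeas : ∀ i k, MeasurableSet (Ae M κ s K m Z i k) := fun i k =>
    (hFME M κ s (Z i k) (m i) K).2.1
  have hind : ∀ i k j l, M * m i + M * m j < nm (Z i k - Z j l) →
      soup 3 ε (Ae M κ s K m Z i k ∩ Ae M κ s K m Z j l) =
        soup 3 ε (Ae M κ s K m Z i k) * soup 3 ε (Ae M κ s K m Z j l) := by
    intro i k j l h
    exact ind_two hIND _ (jb_disj h) (hmeas i k) (hmeas j l)
      (fun N₁ N₂ h' => fatEv_loc h') (fun N₁ N₂ h' => fatEv_loc h')
  have hM := G.hM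
  constructor
  · exact hmeas
  · intro i k j l
    exact meas_opt (hD i k).meas (hD j l).meas
      (fun o o' => erg (wo κ s (Z i k) (m i) o) (wo κ s (Z j l) (m j) o'))
  · exact hP
  · -- same
    intro i k l h1 h2 h3 h4 h5 h6 h7
    apply hind
    have a1 := G.dist2 h1 h2 h4 h1 h2 h6
    have a2 : 3 * M * m i ≤ ((3 * M * m i * k : ℤ) - 3 * M * m i * l).natAbs := by
      have : ((3 * M * m i * k : ℤ) - 3 * M * m i * l) = (3 * M * m i : ℕ) * ((k : ℤ) - l) := by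
        push_cast; ring
      rw [this, Int.natAbs_mul, Int.natAbs_natCast]
      have : 1 ≤ ((k : ℤ) - l).natAbs := by omega
      exact Nat.le_mul_of_pos_right _ this
    have a3 := G.pos i h2
    nlinarith
  · -- diag
    intro i k N h1 h2 h3 h4 hN
    obtain ⟨c, -, -, h5, h6⟩ := sel_spec (hD i k) hN
    exact (erg_le_mass h6).trans_eq h5
  · -- sameX
    intro i k l N h1 h2 h3 h4 h5 h6 h7 hN hN'
    obtain ⟨c, -, -, b1, -⟩ := sel_spec (hD i k) hN
    obtain ⟨c', -, -, b2, -⟩ := sel_spec (hD i l) hN'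
    have a1 := G.dist2 h1 h2 h4 h1 h2 h6
    have a2 : ((3 * M * m i * k : ℤ) - 3 * M * m i * l).natAbs =
        3 * M * m i * ((k : ℤ) - l).natAbs := by
      have : ((3 * M * m i * k : ℤ) - 3 * M * m i * l) = (3 * M * m i : ℕ) * ((k : ℤ) - l) := by
        push_cast; ring
      rw [this, Int.natAbs_mul, Int.natAbs_natCast]
    rw [a2] at a1
    have a3 : 1 ≤ ((k : ℤ) - l).natAbs := by omega
    have a4 := erg_sep hG (e := wo κ s (Z i k) (m i) (D i k N))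
      (f := wo κ s (Z i l) (m i) (D i l N)) (D := m i * (M * ((k : ℤ) - l).natAbs)) (by
        intro x y hx hy
        have c1 := sel_supp hs (hD i k) hN hx
        have c2 := sel_supp hs (hD i l) hN' hy
        have c3 := nm_tri (Z i k) x (Z i l)
        have c4 := nm_tri x y (Z i l)
        rw [nm_comm (Z i k) x] at c3
        have c5 : 18 * m i ≤ 2 * M * m i * ((k : ℤ) - l).natAbs := by
          calc 18 * m i ≤ 2 * M * m i := by nlinarith
            _ ≤ _ := Nat.le_mul_of_pos_right _ a3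
        nlinarith)
    rw [b1, b2] at a4
    have a5 := G.pos i h2
    have a6 : ((m i : ℕ) : ℝ≥0∞) ≠ 0 := by
      simp; omega
    have a7 : ((m i : ℕ) : ℝ≥0∞) ≠ ⊤ := ENNReal.natCast_ne_top _
    have a8 : (m i : ℝ≥0∞) * (Xe κ s m Z D i k i l N * ((M * ((k : ℤ) - l).natAbs : ℕ) : ℝ≥0∞)) ≤
        (m i : ℝ≥0∞) * (κ ^ 2 * C₀ * m i) := by
      unfold Xe
      calc _ = erg (wo κ s (Z i k) (m i) (D i k N)) (wo κ s (Z i l) (m i) (D i l N)) *
          ((m i * (M * ((k : ℤ) - l).natAbs) : ℕ) : ℝ≥0∞) := by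
            push_cast; ring
        _ ≤ _ := a4
        _ = _ := by ring
    exact (ENNReal.mul_le_mul_iff_right a6 a7).mp a8
  · -- far
    intro i k j l h1 h2 h3 h4 h5 h6 h7 h8
    apply hind
    have a1 := G.dist2 h1 (by omega) h5 (by omega : 1 ≤ j) h3 h7
    have a2 := G.dec i j h2 h3
    have a3 : 2 * M * m i = M * m i + M * m i := by ring
    have a4 : M * m j < M * m i := Nat.mul_lt_mul_of_pos_left a2 (by omega)
    omega
  · -- farX
    intro i k j l N h1 h2 h3 h4 h5 h6 h7 h8 hN hN'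
    obtain ⟨c, -, -, b1, -⟩ := sel_spec (hD i k) hN
    obtain ⟨c', -, -, b2, -⟩ := sel_spec (hD j l) hN'
    have a1 := G.dist2 h1 (by omega) h5 (by omega : 1 ≤ j) h3 h7
    have a2 := G.dec i j h2 h3
    set Δ := ((3 * M * m i * k : ℤ) - 3 * M * m j * l).natAbs with hΔ
    have a9 : 80 * m i ≤ 2 * M * m i := by nlinarith
    -- the distance is at least Δ / 2
    have a4 := erg_sep hG (e := wo κ s (Z i k) (m i) (D i k N))
      (f := wo κ s (Z j l) (m j) (D j l N)) (D := Δ - 18 * m i) (by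
        intro x y hx hy
        have c1 := sel_supp hs (hD i k) hN hx
        have c2 := sel_supp hs (hD j l) hN' hy
        have c3 := nm_tri (Z i k) x (Z j l)
        have c4 := nm_tri x y (Z j l)
        rw [nm_comm (Z i k) x] at c3
        omega)
    rw [b1, b2] at a4
    have a5 : Δ ≤ 2 * (Δ - 18 * m i) := by omega
    have a6 : (Δ : ℝ≥0∞) ≤ 2 * ((Δ - 18 * m i : ℕ) : ℝ≥0∞) := by exact_mod_cast a5
    unfold Xe
    calc erg (wo κ s (Z i k) (m i) (D i k N)) (wo κ s (Z j l) (m j) (D j l N)) * (Δ : ℝ≥0∞)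
        ≤ erg (wo κ s (Z i k) (m i) (D i k N)) (wo κ s (Z j l) (m j) (D j l N)) *
          (2 * ((Δ - 18 * m i : ℕ) : ℝ≥0∞)) := by gcongr
      _ = 2 * (erg (wo κ s (Z i k) (m i) (D i k N)) (wo κ s (Z j l) (m j) (D j l N)) *
          ((Δ - 18 * m i : ℕ) : ℝ≥0∞)) := by ring
      _ ≤ 2 * (C₀ * (κ * m i * (κ * m j))) := by gcongr
      _ = 2 * κ ^ 2 * C₀ * m i * m j := by ring
  · -- near
    intro i k j l N h1 h2 h3 h4 h5 h6 h7 hN hN'
    obtain ⟨c, -, -, b1, b3⟩ := sel_spec (hD i k) hN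
    obtain ⟨c', -, -, b2, -⟩ := sel_spec (hD j l) hN'
    unfold Xe
    rw [erg_comm hGTR]
    exact (erg_le_mass b3).trans_eq b2
  · intro i k j l N
    exact erg_comm hGTR _ _

end Pool.Agent.H96.LP
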