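import Pool.Agent.H62.LP.T1
import Pool.Agent.H62.LP.T5
import Pool.Agent.H96.LP.Sb

/-!
# Row DE1: exponential decay in the number of scales
-/

set_option autoImplicit false

open MeasureTheory ProbabilityTheory Filter Topology
open scoped ENNReal NNReal

namespace Pool.Agent.H96.LP

open Pool.Agent.H62.LP

lemma rI_pos {l b a : ℕ} (hl : 2 ≤ l) (hb : 2 ≤ b) (ha : 1 ≤ a) (k : ℕ) : 1 ≤ rI l b a k := by
  unfold rI
  have : 0 < (l * l * b) ^ k := by positivity
  exact Nat.one_le_iff_ne_zero.mpr (by positivity)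

lemma rI_succ {l b a : ℕ} (k : ℕ) : rI l b a (k + 1) = l * (b * (l * rI l b a k)) := by
  unfold rI
  rw [pow_succ]
  ring

lemma rI_mono {l b a : ℕ} (hl : 2 ≤ l) (hb : 2 ≤ b) {k k' : ℕ} (h : k ≤ k') :
    rI l b a k ≤ rI l b a k' := by
  unfold rI
  have : 0 < l * l * b := by positivity
  exact Nat.mul_le_mul_right _ (Nat.pow_le_pow_right this h)

lemma shl_disj {l b a : ℕ} (hl : 2 ≤ l) (hb : 2 ≤ b) {k k' : ℕ} (h : k ≠ k') :
    Disjoint (Shl (rI l b a k) (rI l b a (k + 1))) (Shl (rI l b a k') (rI l b a (k' + 1))) := by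
  rw [Set.disjoint_left]
  rintro c ⟨h1, h2⟩ ⟨-, h3⟩
  have hne : ∃ x, x ∈ c := by
    by_contra hno
    push Not at hno
    apply h1
    induction c using Cycle.induction_on with
    | nil => rfl
    | cons x l _ => exact absurd (by simp) (hno x)
  obtain ⟨x, hx⟩ := hne
  have a1 := h2 x hx
  have a2 := h3 x hx
  rcases Nat.lt_or_gt_of_ne h with h' | h'
  · have := rI_mono (a := a) hl hb (show k + 1 ≤ k' by omega)
    omega
  · have := rI_mono (a := a) hl hb (show k' + 1 ≤ k by omega)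
    omega

/-- A loop inside a shell is never bad. -/
lemma shl_not_bdl {l b a : ℕ} (hl : 2 ≤ l) (hb : 2 ≤ b) (ha : 1 ≤ a) {k i : ℕ} {c : Lp}
    (h : c ∈ Shl (rI l b a k) (rI l b a (k + 1))) : ¬ Bdl l b a i c := by
  rintro ⟨⟨u, hu, h1, h2⟩, h3⟩
  obtain ⟨-, h4⟩ := h
  have a1 := h4 u hu
  have hp := rI_pos hl hb ha i
  have a2 : rI l b a i < nm u := by nlinarith
  have a3 : nm u ≤ rI l b a (i + 1) := by
    rw [rI_succ]
    nlinarith
  have hik : i = k := by
    by_contra hne
    rcases Nat.lt_or_gt_of_ne hne with h' | h'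
    · have := rI_mono (a := a) hl hb (show i + 1 ≤ k by omega)
      omega
    · have := rI_mono (a := a) hl hb (show k + 1 ≤ i by omega)
      omega
  subst hik
  rcases h3 with ⟨v, hv, h5⟩ | ⟨v, hv, h5⟩
  · have := h4 v hv
    omega
  · have := h4 v hv
    omega

open Classical in
/-- Union bound for the points of a Poisson process. -/
lemma pois_union (hVOI : T_VOI) {Λ : Type} [Countable Λ] (q : Λ → ℝ≥0) (P : Set Λ) {x : ℝ}
    (hx : 0 ≤ x) (h : ∑' c, (if c ∈ P then (q c : ℝ≥0∞) else 0) ≤ ENNReal.ofReal x) :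
    pois q {N | ∃ c ∈ P, 1 ≤ N c} ≤ ENNReal.ofReal x := by
  have h1 := (hVOI Λ q P x hx).2 h
  have h2 : MeasurableSet {N : Λ → ℕ | ∀ c ∈ P, N c = 0} := by
    have : {N : Λ → ℕ | ∀ c ∈ P, N c = 0} = ⋂ c ∈ P, {N | N c = 0} := by
      ext N; simp
    rw [this]
    exact MeasurableSet.biInter (Set.to_countable P)
      (fun c _ => (measurable_pi_apply c) (measurableSet_singleton 0))
  have h3 : {N : Λ → ℕ | ∃ c ∈ P, 1 ≤ N c} = {N : Λ → ℕ | ∀ c ∈ P, N c = 0}ᶜ := by
    ext N
    simp only [Set.mem_ofPred_eq, Set.mem_compl_iff]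
    push Not
    refine exists_congr (fun c => and_congr_right (fun _ => ?_))
    omega
  rw [h3, measure_compl h2 (measure_ne_top _ _), measure_univ]
  calc 1 - pois q {N : Λ → ℕ | ∀ c ∈ P, N c = 0} ≤ 1 - ENNReal.ofReal (Real.exp (-x)) := by gcongr
    _ = ENNReal.ofReal (1 - Real.exp (-x)) := by
        rw [ENNReal.ofReal_sub _ (Real.exp_pos _).le]
        simp
    _ ≤ ENNReal.ofReal x := by
        apply ENNReal.ofReal_le_ofReal
        have := Real.add_one_le_exp (-x)
        linarith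


/-- The bad levels of a loop. -/
lemma bad_ext {l b a K k : ℕ} {c : Lp} (hk : k < K) (h : Bdl l b a k c) :
    ∃ i j, i ≤ k ∧ k ≤ j ∧ j < K ∧ c ∈ EB l b a K i j := by
  classical
  set F := (Finset.range K).filter (fun k => Bdl l b a k c) with hF
  have hkF : k ∈ F := by
    rw [hF, Finset.mem_filter, Finset.mem_range]
    exact ⟨hk, h⟩
  have hne : F.Nonempty := ⟨k, hkF⟩
  have h1 := Finset.mem_filter.mp (F.min'_mem hne)
  have h2 := Finset.mem_filter.mp (F.max'_mem hne)
  rw [Finset.mem_range] at h1 h2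
  refine ⟨F.min' hne, F.max' hne, F.min'_le _ hkF, F.le_max' _ hkF, h2.1, h1.2, h2.2, ?_⟩
  intro k' hk' hb
  have hk'F : k' ∈ F := by
    rw [hF, Finset.mem_filter, Finset.mem_range]
    exact ⟨hk', hb⟩
  exact ⟨F.min'_le _ hk'F, F.le_max' _ hk'F⟩

theorem pf_DE1 (hLO2 : T_LO2) (hEMS : T_EMS) (hCSP : T_CSP) (hDTL : T_DTL) (hABI : T_ABI)
    (hIND : T_IND) (hVOI : T_VOI) (hPRS : T_PRS) : T_DE1 := by
  classical
  intro α b n₀ q hb hq hq1 hCr
  obtain ⟨K₀, C, hK₀, hC⟩ := hLO2
  -- the choice of l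
  have hlq : 0 < -Real.log q := by
    have := Real.log_neg hq hq1
    linarith
  set δ : ℝ := min (q / 2) (q * (-Real.log q) / 4) with hδ
  have hδ0 : 0 < δ := lt_min (by positivity) (by positivity)
  set x₀ : ℝ := 3 * C * α + 1 with hx₀
  have hx₀1 : 1 ≤ x₀ := by
    have : 0 ≤ 3 * (C : ℝ) * α := by positivity
    linarith
  obtain ⟨l₀, hl₀⟩ := exists_nat_ge (x₀ / δ)
  set l : ℕ := l₀ + 4 * K₀ with hl
  have hl2 : 2 ≤ l := by omega
  have hlpos : (0 : ℝ) < l := by
    have : 0 < l := by omega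
    exact_mod_cast this
  set x : ℝ := x₀ / l with hx
  have hx0 : 0 ≤ x := by positivity
  have hxδ : x ≤ δ := by
    rw [hx, div_le_iff₀ hlpos]
    rw [div_le_iff₀ hδ0] at hl₀
    have : (l₀ : ℝ) ≤ l := by
      rw [hl]; push_cast
      have : (0 : ℝ) ≤ 4 * K₀ := by positivity
      linarith
    nlinarith
  have hxq : 2 * x ≤ q := by
    have := hxδ.trans (min_le_left _ _)
    linarith
  have hρ : q * Real.exp (2 * x / q) < 1 := by
    have h1 := hxδ.trans (min_le_right _ _)
    have h2 : 2 * x / q < -Real.log q := by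
      rw [div_lt_iff₀ hq]
      nlinarith
    calc q * Real.exp (2 * x / q) < q * Real.exp (-Real.log q) := by
          gcongr
      _ = 1 := by
          rw [Real.exp_neg, Real.exp_log hq]
          exact mul_inv_cancel₀ hq.ne'
  set a : ℕ := n₀ + 1 with ha
  have ha1 : 1 ≤ a := by omega
  refine ⟨l, a, q * Real.exp (2 * x / q), hl2, ha1, by positivity, hρ, ?_⟩
  intro K
  -- the events
  set A : ℕ → Set (Lp → ℕ) := fun k => {N | CrS (rI l b a k) (rI l b a (k + 1))
    (l * rI l b a k) (b * (l * rI l b a k)) (sp N)} with hA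
  set X : ℕ → ℕ → Set (Lp → ℕ) := fun i j => {N | ∃ c ∈ EB l b a K i j, 1 ≤ N c} with hX
  have hP1 : IsProbabilityMeasure (soup 3 α) := by
    unfold soup
    infer_instance
  have hAm : ∀ k, MeasurableSet (A k) := fun k => (hCSP _ _ _ _).2.1
  have hXm : ∀ i j, MeasurableSet (X i j) := by
    intro i j
    have : X i j = ⋃ c ∈ EB l b a K i j, {N | 1 ≤ N c} := by
      ext N; simp [hX]
    rw [this]
    exact MeasurableSet.biUnion (Set.to_countable _)
      (fun c _ => (measurable_pi_apply c) (measurableSet_Ici))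
  have hAp : ∀ k, soup 3 α (A k) ≤ ENNReal.ofReal q := by
    intro k
    refine ((hCSP _ _ _ _).1 α).trans (hCr _ ?_)
    have h1 : a ≤ rI l b a k := by
      unfold rI
      exact Nat.le_mul_of_pos_left _ (by positivity)
    nlinarith
  have hXp : ∀ i j, i ≤ j → soup 3 α (X i j) ≤ ENNReal.ofReal (x ^ (j - i + 1)) := by
    intro i j hij
    have h1 := hEMS K₀ C hK₀ hC l b a K i j (by omega) hb ha1 hij
    apply pois_union hVOI _ _ (by positivity)
    have h2 : (∑' c, (if c ∈ EB l b a K i j then ((inten 3 α c : ℝ≥0) : ℝ≥0∞) else 0)) ≤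
        α * ∑' c : Lp, (if c ∈ EB l b a K i j then mu c else 0) := by
      rw [← ENNReal.tsum_mul_left]
      apply ENNReal.tsum_le_tsum
      intro c
      by_cases hc : c ∈ EB l b a K i j
      · rw [if_pos hc, if_pos hc]
        unfold inten
        rw [ENNReal.coe_mul]
        gcongr
        exact ENNReal.coe_toNNReal_le_self
      · rw [if_neg hc, if_neg hc, mul_zero]
    refine h2.trans ?_
    set Y := ∑' c : Lp, (if c ∈ EB l b a K i j then mu c else 0) with hY
    set d := j - i + 1 with hd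
    have h3 : ENNReal.ofReal (x ^ d) * (l : ℝ≥0∞) ^ d = ENNReal.ofReal (x₀ ^ d) := by
      have : (l : ℝ≥0∞) = ENNReal.ofReal l := by simp
      rw [this, ← ENNReal.ofReal_pow hlpos.le, ← ENNReal.ofReal_mul (by positivity), hx, div_pow]
      congr 1
      field_simp
    have h4 : (3 * C * α : ℝ≥0∞) ≤ ENNReal.ofReal (x₀ ^ d) := by
      have h5 : (3 * C * α : ℝ≥0∞) = ENNReal.ofReal (3 * C * α) := by
        rw [ENNReal.ofReal_mul (by positivity), ENNReal.ofReal_mul (by norm_num)]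
        simp
      rw [h5]
      apply ENNReal.ofReal_le_ofReal
      calc (3 * C * α : ℝ) ≤ x₀ := by linarith
        _ = x₀ ^ 1 := (pow_one _).symm
        _ ≤ x₀ ^ d := pow_le_pow_right₀ hx₀1 (by omega)
    have h6 : (l : ℝ≥0∞) ^ d ≠ 0 := by
      apply pow_ne_zero
      simp; omega
    have h7 : (l : ℝ≥0∞) ^ d ≠ ⊤ := ENNReal.pow_ne_top (ENNReal.natCast_ne_top _)
    have h8 : (l : ℝ≥0∞) ^ d * (α * Y) ≤ (l : ℝ≥0∞) ^ d * ENNReal.ofReal (x ^ d) := by
      calc (l : ℝ≥0∞) ^ d * (α * Y) = α * (Y * (l : ℝ≥0∞) ^ d) := by ring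
        _ ≤ α * (3 * C) := by gcongr
        _ = 3 * C * α := by ring
        _ ≤ ENNReal.ofReal (x₀ ^ d) := h4
        _ = _ := by rw [← h3, mul_comm]
    exact (ENNReal.mul_le_mul_iff_right h6 h7).mp h8
  -- the inclusion
  have hincl : soup 3 α {N | ∃ y, rI l b a K ≤ nm y ∧ Conn (sp N) 0 y} ≤
      soup 3 α {ω | ∀ k < K, ω ∈ A k ∨ ∃ i j, i ≤ k ∧ k ≤ j ∧ j < K ∧ ω ∈ X i j} := by
    apply measure_mono_ae
    have h1 : ∀ᵐ N ∂(soup 3 α), ∀ c, 1 ≤ N c → inten 3 α c ≠ 0 := hPRS Lp (inten 3 α)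
    filter_upwards [h1] with N hN hy
    obtain ⟨y, hy1, hy2⟩ := hy
    have h2 : ∀ c ∈ sp N, mu c ≠ 0 := by
      intro c hc h0
      apply hN c hc
      unfold inten
      rw [h0]
      simp
    intro k hk
    rcases hDTL l b a K (sp N) hl2 hb ha1 h2 y hy1 hy2 k hk with h3 | ⟨c, hc, h3⟩
    · exact Or.inl h3
    · obtain ⟨i, j, h4, h5, h6, h7⟩ := bad_ext hk h3
      exact Or.inr ⟨i, j, h4, h5, h6, c, h7, hc⟩
  refine hincl.trans (hABI (Lp → ℕ) (soup 3 α) K A X q x hq hq1.le hx0 hxq ?_)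
  -- independence
  intro s t hs ht
  set II : ℕ ⊕ (ℕ × ℕ) → Set Lp := Sum.elim (fun k => Shl (rI l b a k) (rI l b a (k + 1)))
    (fun p => if p.1 ≤ p.2 ∧ p.2 < K then EB l b a K p.1 p.2 else ∅) with hII
  set EE : ℕ ⊕ (ℕ × ℕ) → Set (Lp → ℕ) := Sum.elim A
    (fun p => if p.1 ≤ p.2 ∧ p.2 < K then X p.1 p.2 else Set.univ) with hEE
  have h := hIND Lp (inten 3 α) (ℕ ⊕ (ℕ × ℕ)) II EE ?_ ?_ ?_ (s.disjSum t)
  · have e1 : (⋂ k ∈ s, A k) ∩ (⋂ p ∈ t, X p.1 p.2) = ⋂ i ∈ s.disjSum t, EE i := by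
      ext N
      simp only [Set.mem_inter_iff, Set.mem_iInter]
      constructor
      · rintro ⟨g1, g2⟩ i hi
        rcases i with k | p
        · exact g1 k (by simpa using hi)
        · have hp : p ∈ t := by simpa using hi
          have : EE (Sum.inr p) = X p.1 p.2 := by
            rw [hEE]; simp [ht p hp]
          rw [this]
          exact g2 p hp
      · intro g
        refine ⟨fun k hk => g (Sum.inl k) (by simpa using hk), fun p hp => ?_⟩
        have := g (Sum.inr p) (by simpa using hp)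
        have e2 : EE (Sum.inr p) = X p.1 p.2 := by
          rw [hEE]; simp [ht p hp]
        rw [e2] at this
        exact this
    have h' : soup 3 α (⋂ i ∈ s.disjSum t, EE i) = ∏ i ∈ s.disjSum t, soup 3 α (EE i) := h
    rw [e1, h', Finset.prod_disjSum]
    apply mul_le_mul'
    · exact Finset.prod_le_prod' (fun k _ => hAp k)
    · apply Finset.prod_le_prod'
      intro p hp
      have e2 : EE (Sum.inr p) = X p.1 p.2 := by
        rw [hEE]; simp [ht p hp]
      rw [e2]
      exact hXp p.1 p.2 (ht p hp).1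
  · -- disjointness
    intro i j hij
    rcases i with k | p <;> rcases j with k' | p'
    · exact shl_disj hl2 hb (by simpa using hij)
    · change Disjoint (Shl _ _) (if p'.1 ≤ p'.2 ∧ p'.2 < K then EB l b a K p'.1 p'.2 else ∅)
      split_ifs
      · rw [Set.disjoint_left]
        intro c h1 h2
        exact shl_not_bdl hl2 hb ha1 h1 h2.1
      · simp
    · change Disjoint (if p.1 ≤ p.2 ∧ p.2 < K then EB l b a K p.1 p.2 else ∅) (Shl _ _)
      split_ifs
      · rw [Set.disjoint_left]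
        intro c h2 h1
        exact shl_not_bdl hl2 hb ha1 h1 h2.1
      · simp
    · change Disjoint (if p.1 ≤ p.2 ∧ p.2 < K then EB l b a K p.1 p.2 else ∅)
        (if p'.1 ≤ p'.2 ∧ p'.2 < K then EB l b a K p'.1 p'.2 else ∅)
      split_ifs with c1 c2
      · rw [Set.disjoint_left]
        rintro c ⟨h1, h2, h3⟩ ⟨h4, h5, h6⟩
        apply hij
        have a1 := h3 p'.1 (by omega) h4
        have a2 := h3 p'.2 (by omega) h5
        have a3 := h6 p.1 (by omega) h1
        have a4 := h6 p.2 (by omega) h2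
        have : p = p' := Prod.ext (by omega) (by omega)
        rw [this]
      · simp
      · simp
      · simp
  · intro i
    rcases i with k | p
    · exact hAm k
    · change MeasurableSet (if p.1 ≤ p.2 ∧ p.2 < K then X p.1 p.2 else Set.univ)
      split_ifs
      · exact hXm _ _
      · exact MeasurableSet.univ
  · intro i N N' hN
    rcases i with k | p
    · exact (hCSP _ _ _ _).2.2 N N' hN
    · change N ∈ (if p.1 ≤ p.2 ∧ p.2 < K then X p.1 p.2 else Set.univ) ↔
        N' ∈ (if p.1 ≤ p.2 ∧ p.2 < K then X p.1 p.2 else Set.univ)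
      by_cases hp : p.1 ≤ p.2 ∧ p.2 < K
      · rw [if_pos hp]
        have e2 : II (Sum.inr p) = EB l b a K p.1 p.2 := by
          rw [hII]; simp [hp]
        rw [e2] at hN
        constructor
        · rintro ⟨c, hc, h1⟩
          exact ⟨c, hc, by rw [← hN c hc]; exact h1⟩
        · rintro ⟨c, hc, h1⟩
          exact ⟨c, hc, by rw [hN c hc]; exact h1⟩
      · rw [if_neg hp]
        simp

end Pool.Agent.H96.LP
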