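import Pool.Agent.H96.LP.Se

/-!
# Row STP: the fat property, the step from small scales to larger scales
-/

set_option autoImplicit false

open MeasureTheory ProbabilityTheory Filter Topology
open scoped ENNReal NNReal

namespace Pool.Agent.H96.LP

open Pool.Agent.H62.LP

/-- The factor between two scales. -/
noncomputable def rr (a : ℝ) : ℕ := ⌈(1 / a) ^ 3⌉₊

lemma rr_le {a : ℝ} (ha : 0 < a) (h1 : a ≤ 1) : (rr a : ℝ) ≤ 2 * (1 / a) ^ 3 := by
  unfold rr
  have h2 : (1 : ℝ) ≤ 1 / a := by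
    rw [le_div_iff₀ ha]; linarith
  have h3 : (1 : ℝ) ≤ (1 / a) ^ 3 := one_le_pow₀ h2
  have := Nat.ceil_lt_add_one (show (0 : ℝ) ≤ (1 / a) ^ 3 by positivity)
  linarith

lemma le_rr {a : ℝ} : (1 / a) ^ 3 ≤ rr a := Nat.le_ceil _

lemma log_rr {a : ℝ} (ha : 0 < a) (h1 : a ≤ 1) :
    Real.log (rr a) ≤ 1 + 3 * Real.log (1 / a) := by
  have h0 : (0 : ℝ) < rr a := lt_of_lt_of_le (by positivity) le_rr
  calc Real.log (rr a) ≤ Real.log (2 * (1 / a) ^ 3) := Real.log_le_log h0 (rr_le ha h1)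
    _ = Real.log 2 + 3 * Real.log (1 / a) := by
        rw [Real.log_mul (by norm_num) (by positivity), Real.log_pow]
        push_cast
        ring
    _ ≤ _ := by
        have := Real.log_two_lt_d9
        linarith

lemma a_log {a : ℝ} (ha : 0 < a) : a * Real.log (1 / a) ≤ 2 * Real.sqrt a := by
  have hs : 0 < Real.sqrt a := Real.sqrt_pos.mpr ha
  have h1 : Real.log (1 / Real.sqrt a) ≤ 1 / Real.sqrt a - 1 :=
    Real.log_le_sub_one_of_pos (by positivity)
  have h2 : Real.log (1 / a) = 2 * Real.log (1 / Real.sqrt a) := by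
    rw [one_div, one_div, Real.log_inv, Real.log_inv, Real.log_sqrt ha.le]
    ring
  have h3 : Real.sqrt a * Real.sqrt a = a := Real.mul_self_sqrt ha.le
  have h4 : a * (1 / Real.sqrt a) = Real.sqrt a := by
    field_simp
    rw [sq]
    exact h3.symm
  rw [h2]
  nlinarith

theorem pf_STP (hSMW : T_SMW) (hSME : T_SME) (hMRG : T_MRG) (hIND : T_IND) (hVOI : T_VOI)
    (hSEL : T_SEL) (hFME : T_FME) (hSPH : T_SPH) (hTRL : T_TRL) (hMUS : T_MUS) (hGTR : T_GTR) :
    T_STP := by
  intro C₀ c₁ κ M hG hM hH ε hε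
  have hc₁ : (0 : ℝ) < c₁ := hH.1
  have hκ : (0 : ℝ) < κ := hH.2.1
  have hε' : (0 : ℝ) < ε := hε
  obtain ⟨S₁, hS₁, hW⟩ := hSMW κ C₀ M hH.2.1 hG.1 (by omega)
  obtain ⟨S₂, hS₂, hE⟩ := hSME κ C₀ M hH.2.1 hG.1 (by omega)
  -- the number of scales
  obtain ⟨I, hI⟩ := exists_nat_ge (1536 * (M : ℝ) / (ε * c₁ * κ) + 1)
  have hI1 : (1 : ℝ) ≤ I := by
    have : 0 ≤ 1536 * (M : ℝ) / (ε * c₁ * κ) := by positivity
    linarith
  have hI1' : 1 ≤ I := by exact_mod_cast hI1
  have hIl : (1536 : ℝ) * M ≤ I * ε * c₁ * κ := by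
    have : 1536 * (M : ℝ) / (ε * c₁ * κ) ≤ I := by linarith
    rw [div_le_iff₀ (by positivity)] at this
    linarith
  -- the threshold for a
  have hM' : (40 : ℝ) ≤ M := by exact_mod_cast hM
  set b : ℝ := 1 / ((S₁ + S₂ + 1) * I ^ 2 * (10 * I) * (3 * M)) with hb
  have hb0 : 0 < b := by positivity
  have hbI : b * ((S₁ + S₂ + 1) * I ^ 2 * (10 * I) * (3 * M)) = 1 := by
    rw [hb]
    field_simp
  have hI2 : (1 : ℝ) ≤ (I : ℝ) ^ 2 := one_le_pow₀ hI1
  have hb1 : b * (3 * M) ≤ 1 := by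
    have : 1 ≤ (S₁ + S₂ + 1) * I ^ 2 * (10 * I) := by
      have h1 : (1 : ℝ) ≤ (S₁ + S₂ + 1) * I ^ 2 := one_le_mul_of_one_le_of_one_le (by linarith) hI2
      exact one_le_mul_of_one_le_of_one_le h1 (by linarith)
    calc b * (3 * M) = b * (1 * (3 * M)) := by ring
      _ ≤ b * ((S₁ + S₂ + 1) * I ^ 2 * (10 * I) * (3 * M)) := by gcongr
      _ = 1 := hbI
  have hb2 : b ≤ 1 / 120 := by
    rw [le_div_iff₀ (by norm_num)]
    nlinarith
  have hb3 : (S₁ + S₂) * I ^ 2 * (10 * I) * b ≤ 1 := by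
    have h1 : (S₁ + S₂) * 1 ≤ (S₁ + S₂ + 1) * (3 * M) := by
      apply mul_le_mul <;> linarith
    have h2 : 0 ≤ b * I ^ 2 * (10 * I) := by positivity
    calc (S₁ + S₂) * I ^ 2 * (10 * I) * b = (b * I ^ 2 * (10 * I)) * ((S₁ + S₂) * 1) := by ring
      _ ≤ (b * I ^ 2 * (10 * I)) * ((S₁ + S₂ + 1) * (3 * M)) := mul_le_mul_of_nonneg_left h1 h2
      _ = b * ((S₁ + S₂ + 1) * I ^ 2 * (10 * I) * (3 * M)) := by ring
      _ = 1 := hbI
  refine ⟨b ^ 2, 3 * I, by positivity, by positivity, ?_⟩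
  intro a ha hab n hn hFB
  have hsa : Real.sqrt a ≤ b := by
    rw [← Real.sqrt_sq hb0.le]
    exact Real.sqrt_le_sqrt hab
  have hsa0 : 0 < Real.sqrt a := Real.sqrt_pos.mpr ha
  have hsa2 : Real.sqrt a * Real.sqrt a = a := Real.mul_self_sqrt ha.le
  have hab' : a ≤ b := by nlinarith
  have ha1 : a ≤ 1 := by linarith
  have hasa : a ≤ Real.sqrt a := by nlinarith
  have hloga : 0 ≤ Real.log (1 / a) := by
    apply Real.log_nonneg
    rw [le_div_iff₀ ha]
    linarith
  set r : ℕ := rr a with hr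
  have hr0 : (0 : ℝ) < r := lt_of_lt_of_le (by positivity) le_rr
  have hr3M : 3 * M ≤ r := by
    have h1 : (3 * M : ℝ) ≤ 1 / a := by
      rw [le_div_iff₀ ha]
      nlinarith
    have h2 : 1 / a ≤ (1 / a) ^ 3 := by
      have h3 : 1 ≤ 1 / a := by linarith
      calc 1 / a = (1 / a) ^ 1 := (pow_one _).symm
        _ ≤ (1 / a) ^ 3 := pow_le_pow_right₀ h3 (by norm_num)
    have h4 : ((3 * M : ℕ) : ℝ) ≤ r := by
      push_cast
      exact h1.trans (h2.trans le_rr)
    exact_mod_cast h4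
  have hr120 : 120 ≤ r := by omega
  have hlogr : Real.log r ≤ 1 + 3 * Real.log (1 / a) := log_rr ha ha1
  -- n is large
  have hn0 : 0 < n := by
    rcases Nat.eq_zero_or_pos n with h | h
    · subst h
      simp only [Nat.cast_zero, Real.log_zero] at hn
      nlinarith
    · exact h
  have hn0' : (0 : ℝ) < n := by exact_mod_cast hn0
  have hrI : r ^ I ≤ n := by
    have h1 : Real.log ((r : ℝ) ^ I) ≤ Real.log n := by
      rw [Real.log_pow]
      calc (I : ℝ) * Real.log r ≤ I * (1 + 3 * Real.log (1 / a)) := by gcongr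
        _ ≤ 3 * I * (1 + Real.log (1 / a)) := by nlinarith
        _ ≤ Real.log n := hn
    have h2 : (r : ℝ) ^ I ≤ n := (Real.log_le_log_iff (by positivity) hn0').mp h1
    exact_mod_cast h2
  -- the scales
  set m : ℕ → ℕ := fun i => n / r ^ i with hm
  set N : ℕ → ℕ := fun i => n / (3 * M * m i) with hN
  have hpos : ∀ i, i ≤ I → 1 ≤ m i := by
    intro i hi
    have h1 : r ^ i ≤ n := (Nat.pow_le_pow_right (by omega) hi).trans hrI
    exact (Nat.one_le_div_iff (by positivity)).mpr h1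
  have hdecr : ∀ i j, i < j → r * m j ≤ m i := by
    intro i j hij
    have h1 : r ^ (i + 1) ≤ r ^ j := Nat.pow_le_pow_right (by omega) hij
    have h2 : m j ≤ n / r ^ (i + 1) := Nat.div_le_div_left h1 (by positivity)
    have h3 : n / r ^ (i + 1) = m i / r := by
      rw [hm, pow_succ, Nat.div_div_eq_div_mul]
    rw [h3] at h2
    calc r * m j ≤ r * (m i / r) := Nat.mul_le_mul_left _ h2
      _ ≤ m i := Nat.mul_div_le _ _
  have hm0 : m 0 = n := by simp [hm]
  have hle : ∀ i, 1 ≤ i → 3 * M * m i ≤ n := by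
    intro i hi
    calc 3 * M * m i ≤ r * m i := Nat.mul_le_mul_right _ hr3M
      _ ≤ m 0 := hdecr 0 i hi
      _ = n := hm0
  have hup : ∀ i, N i * (3 * M * m i) ≤ n := fun i => Nat.div_mul_le_self _ _
  have hScales : Scales M I n N m (a.toNNReal : ℝ≥0) r := by
    have haa : ((a.toNNReal : ℝ≥0) : ℝ) = a := Real.coe_toNNReal a ha.le
    constructor
    · exact hm0
    · exact hpos
    · intro i j hij hj
      have h1 := hdecr i j hij
      have h2 : ((r * m j : ℕ) : ℝ) ≤ ((m i : ℕ) : ℝ) := by exact_mod_cast h1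
      push_cast at h2
      have h3 : (0 : ℝ) ≤ m i := Nat.cast_nonneg _
      linarith
    · rw [haa]
      calc (1 : ℝ) = (1 / a) ^ 3 * a ^ 3 := by field_simp
        _ ≤ r * a ^ 3 := by
            gcongr
            exact le_rr
    · intro i h1 h2
      exact hup i
    · intro i h1 h2
      have h3 : 0 < 3 * M * m i := by
        have := hpos i h2
        positivity
      have h4 : n < (N i + 1) * (3 * M * m i) := by
        have := Nat.lt_div_mul_add (a := n) h3
        calc n < n / (3 * M * m i) * (3 * M * m i) + 3 * M * m i := this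
          _ = (N i + 1) * (3 * M * m i) := by rw [hN]; ring
      have h5 : 1 ≤ N i := (Nat.one_le_div_iff h3).mpr (hle i h1)
      calc n ≤ (N i + 1) * (3 * M * m i) := h4.le
        _ ≤ (N i + N i) * (3 * M * m i) := by gcongr
        _ = N i * (6 * M * m i) := by ring
  -- the logarithm
  have hlogm : Real.log ((n : ℝ) / m I) ≤ I + 1 + 3 * I * Real.log (1 / a) := by
    have h1 : (1 : ℝ) ≤ m I := by exact_mod_cast hpos I le_rfl
    have h2 : (n : ℝ) / m I ≤ 2 * (r : ℝ) ^ I := by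
      rw [div_le_iff₀ (by linarith)]
      have h3 : n < (m I + 1) * r ^ I := by
        have := Nat.lt_div_mul_add (a := n) (show 0 < r ^ I by positivity)
        calc n < n / r ^ I * r ^ I + r ^ I := this
          _ = (m I + 1) * r ^ I := by rw [hm]; ring
      have h4 : (n : ℝ) < (m I + 1) * (r : ℝ) ^ I := by exact_mod_cast h3
      have h5 : (0 : ℝ) < (r : ℝ) ^ I := by positivity
      nlinarith
    calc Real.log ((n : ℝ) / m I) ≤ Real.log (2 * (r : ℝ) ^ I) :=
          Real.log_le_log (by positivity) h2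
      _ = Real.log 2 + I * Real.log r := by
          rw [Real.log_mul (by norm_num) (by positivity), Real.log_pow]
      _ ≤ 1 + I * (1 + 3 * Real.log (1 / a)) := by
          have := Real.log_two_lt_d9
          gcongr
          linarith
      _ = _ := by ring
  have haI : a * (1 + Real.log ((n : ℝ) / m I)) ≤ Real.sqrt a * (10 * I) := by
    have h1 := a_log ha
    calc a * (1 + Real.log ((n : ℝ) / m I)) ≤ a * (1 + (I + 1 + 3 * I * Real.log (1 / a))) := by
          gcongr
      _ = a * (I + 2) + 3 * I * (a * Real.log (1 / a)) := by ring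
      _ ≤ Real.sqrt a * (I + 2) + 3 * I * (2 * Real.sqrt a) := by gcongr
      _ = Real.sqrt a * (7 * I + 2) := by ring
      _ ≤ Real.sqrt a * (10 * I) := by
          gcongr
          linarith
  -- the event
  intro s hs K z hK hz hy
  obtain ⟨y, hyK, hyn⟩ := hy
  have hex : ∀ i k, ∃ Z : V3, 1 ≤ i → k ≤ N i → Z ∈ K ∧ nm (Z - z) = 3 * M * m i * k := by
    intro i k
    by_cases h : 1 ≤ i ∧ k ≤ N i
    · have h1 : 3 * M * m i * k ≤ n := by
        calc 3 * M * m i * k ≤ 3 * M * m i * N i := Nat.mul_le_mul_left _ h.2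
          _ = N i * (3 * M * m i) := mul_comm _ _
          _ ≤ n := hup i
      obtain ⟨u, hu, hu'⟩ := hSPH K z n hK hz ⟨y, hyK, hyn⟩ _ h1
      exact ⟨u, fun _ _ => ⟨hu, hu'⟩⟩
    · exact ⟨z, fun h1 h2 => absurd ⟨h1, h2⟩ h⟩
  choose Z hZ using hex
  have hGeo : Geo M I n N m z K Z := by
    constructor
    · exact hM
    · exact hpos
    · intro i j hij hj
      have h1 := hdecr i j hij
      have h2 := hpos j hj
      nlinarith
    · intro i h1 _
      exact hle i h1
    · intro i _ _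
      exact hup i
    · intro i k h1 _ h3
      exact (hZ i k h1 h3).1
    · intro i k h1 _ h3
      exact (hZ i k h1 h3).2
  have hsel : ∀ i k, ∃ D, Sel M κ s (Z i k) (m i) K D := fun i k =>
    exists_sel hSEL hFME M κ s (Z i k) (m i) K
  choose D hD using hsel
  set a' : ℝ≥0 := a.toNNReal with ha'
  have haa : (a' : ℝ) = a := Real.coe_toNNReal a ha.le
  have ha'0 : 0 < a' := Real.toNNReal_pos.mpr ha
  have hP : ∀ i k, 1 ≤ i → i ≤ I → 1 ≤ k → k ≤ N i →
      (a' : ℝ≥0∞) ≤ soup 3 ε (Ae M κ s K m Z i k) := by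
    intro i k h1 h2 h3 h4
    have h5 : m i < n := by
      have := hdecr 0 i h1
      have h6 := hpos i h2
      rw [hm0] at this
      nlinarith
    have h7 := (hZ i k h1 h4).2
    refine hFB (m i) (hpos i h2) h5 s hs K (Z i k) hK (hZ i k h1 h4).1 ⟨z, hz, ?_⟩
    rw [nm_comm, h7]
    calc m i = 1 * m i * 1 := by ring
      _ ≤ 3 * M * m i * k := by gcongr; omega
  have hP1 : IsProbabilityMeasure (soup 3 ε) := by
    unfold soup
    infer_instance
  have hEv := events hGTR hIND hFME hG hGeo (ε := ε) hs hD hP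
  have hwm := hW (Lp → ℕ) (soup 3 ε) I n N m a' r (Ae M κ s K m Z) (Xe κ s m Z D) ha'0 hI1'
    hScales hEv (by
      rw [haa]
      calc S₁ * a * I ^ 2 = S₁ * I ^ 2 * 1 * a := by ring
        _ ≤ (S₁ + S₂) * I ^ 2 * (10 * I) * b := by
            gcongr
            · linarith
            · linarith
        _ ≤ 1 := hb3)
  have hem := hE (Lp → ℕ) (soup 3 ε) I n N m a' r (Ae M κ s K m Z) (Xe κ s m Z D) ha'0 hI1'
    hScales hEv (by
      rw [haa]
      calc S₂ * a * I ^ 2 * (1 + Real.log ((n : ℝ) / m I))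
          = S₂ * I ^ 2 * (a * (1 + Real.log ((n : ℝ) / m I))) := by ring
        _ ≤ S₂ * I ^ 2 * (Real.sqrt a * (10 * I)) := by gcongr
        _ = S₂ * I ^ 2 * (10 * I) * Real.sqrt a := by ring
        _ ≤ (S₁ + S₂) * I ^ 2 * (10 * I) * b := by
            gcongr
            linarith
        _ ≤ 1 := hb3)
  have hfin := core hMRG hVOI hTRL hMUS hGTR hH hε hn0 hI1' hGeo hs hD ha'0
    (by rw [haa]; linarith) hIl hP hEv.meas hEv.measX hwm hem
  exact hfin

end Pool.Agent.H96.LP
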