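import Pool.Agent.H62.LP.T1
import Pool.Agent.H62.LP.T2

/-!
# Row STP, part 1: geometry, energies, locality
-/

set_option autoImplicit false

open MeasureTheory ProbabilityTheory Filter Topology
open scoped ENNReal NNReal

namespace Pool.Agent.H96.LP

open Pool.Agent.H62.LP

/-! ## The norm -/

lemma nm_le_iff {d : ℕ} {x : Vt d} {r : ℕ} : nm x ≤ r ↔ ∀ i, (x i).natAbs ≤ r := by
  unfold nm
  rw [Finset.sup_le_iff]
  simp

lemma natAbs_le_nm {d : ℕ} (x : Vt d) (i : Fin d) : (x i).natAbs ≤ nm x :=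
  nm_le_iff.mp le_rfl i

lemma nm_tri {d : ℕ} (x y z : Vt d) : nm (x - z) ≤ nm (x - y) + nm (y - z) := by
  rw [nm_le_iff]
  intro i
  have h1 := natAbs_le_nm (x - y) i
  have h2 := natAbs_le_nm (y - z) i
  simp only [Pi.sub_apply] at h1 h2 ⊢
  omega

lemma nm_comm {d : ℕ} (x y : Vt d) : nm (x - y) = nm (y - x) := by
  unfold nm
  congr 1
  funext i
  simp only [Pi.sub_apply]
  omega

lemma nm_zero {d : ℕ} (x : Vt d) : nm (x - x) = 0 := by
  have : nm (x - x) ≤ 0 := by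
    rw [nm_le_iff]
    intro i
    simp
  omega

lemma cen_zero (s : ℤ) (n : ℕ) : cen s n 0 = 8 * s * n := by
  simp [cen]

lemma nm_cen (s : ℤ) (hs : s = 1 ∨ s = -1) (n : ℕ) : nm (cen s n) = 8 * n := by
  apply le_antisymm
  · rw [nm_le_iff]
    intro i
    unfold cen
    by_cases hi : i = 0
    · subst hi
      rcases hs with h | h <;> subst h <;> simp
      all_goals omega
    · simp [hi]
  · have h := natAbs_le_nm (cen s n) 0
    rw [cen_zero] at h
    rcases hs with h' | h' <;> subst h' <;> omega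

/-- Points of the region. -/
lemma rg_le {s : ℤ} (hs : s = 1 ∨ s = -1) {n : ℕ} {x : V3} (hx : x ∈ Rg s n) :
    nm x ≤ 9 * n ∧ 7 * n ≤ nm x := by
  have h : nm (x - cen s n) ≤ n := hx
  have h1 := nm_cen s hs n
  have h2 : nm (x - 0) ≤ nm (x - cen s n) + nm (cen s n - 0) := nm_tri _ _ _
  have h3 : nm (cen s n - 0) ≤ nm (cen s n - x) + nm (x - 0) := nm_tri _ _ _
  rw [nm_comm (cen s n) x] at h3
  simp only [sub_zero] at h2 h3
  omega

/-! ## Fat sets -/

lemma mass_shift (w : V3 → ℝ≥0∞) (z : V3) : mass (fun x => w (x - z)) = mass w := by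
  unfold mass
  exact (Equiv.subRight z).tsum_eq w

lemma pot_shift (hGTR : T_GTR) (w : V3 → ℝ≥0∞) (z x : V3) :
    pot (fun x => w (x - z)) x = pot w (x - z) := by
  unfold pot
  rw [← (Equiv.subRight z).tsum_eq (fun y => Gr (x - z) y * w y)]
  apply tsum_congr
  intro y
  have := (hGTR (x - z) (y - z) z).1
  simp only [sub_add_cancel] at this
  simp only [Equiv.subRight_apply]
  rw [this]

lemma erg_shift (hGTR : T_GTR) (e f : V3 → ℝ≥0∞) (z : V3) :
    erg (fun x => e (x - z)) (fun x => f (x - z)) = erg e f := by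
  unfold erg
  rw [← (Equiv.subRight z).tsum_eq (fun x => ∑' y, e x * f y * Gr x y)]
  apply tsum_congr
  intro x
  rw [← (Equiv.subRight z).tsum_eq (fun y => e ((Equiv.subRight z) x) * f y *
    Gr ((Equiv.subRight z) x) y)]
  apply tsum_congr
  intro y
  have := (hGTR (x - z) (y - z) z).1
  simp only [sub_add_cancel] at this
  simp only [Equiv.subRight_apply]
  rw [this]

lemma fat_shift1 (hGTR : T_GTR) {κ : ℝ≥0} {n : ℕ} {A : Set V3} (z : V3) (h : Fat κ n A) :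
    Fat κ n {x | x - z ∈ A} := by
  obtain ⟨w, h1, h2, h3⟩ := h
  refine ⟨fun x => w (x - z), fun x hx => h1 _ hx, ?_, fun x => ?_⟩
  · rw [mass_shift, h2]
  · rw [pot_shift hGTR]
    exact h3 _

lemma fat_shift (hGTR : T_GTR) {κ : ℝ≥0} {n : ℕ} {A : Set V3} (z : V3) :
    Fat κ n {x | x - z ∈ A} ↔ Fat κ n A := by
  constructor
  · intro h
    have := fat_shift1 hGTR (-z) h
    simpa using this
  · exact fat_shift1 hGTR z

/-- A fat set is nonempty. -/
lemma fat_ne {κ : ℝ≥0} (hκ : 0 < κ) {n : ℕ} (hn : 1 ≤ n) {A : Set V3} (h : Fat κ n A) :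
    ∃ x, x ∈ A := by
  obtain ⟨w, h1, h2, -⟩ := h
  by_contra hne
  push Not at hne
  have h0 : mass w = 0 := by
    unfold mass
    rw [ENNReal.tsum_eq_zero]
    exact fun x => h1 x (hne x)
  rw [h0] at h2
  have : (κ : ℝ≥0∞) * (n : ℝ≥0∞) ≠ 0 := by
    apply mul_ne_zero
    · simpa using hκ.ne'
    · simp; omega
  exact this h2.symm

/-! ## Energies -/

lemma erg_comm (hGTR : T_GTR) (e f : V3 → ℝ≥0∞) : erg e f = erg f e := by
  unfold erg
  rw [ENNReal.tsum_comm]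
  apply tsum_congr
  intro x
  apply tsum_congr
  intro y
  rw [(hGTR y x 0).2, mul_comm (e y)]

lemma erg_eq_pot (e f : V3 → ℝ≥0∞) : erg e f = ∑' x, e x * pot f x := by
  unfold erg pot
  apply tsum_congr
  intro x
  rw [← ENNReal.tsum_mul_left]
  apply tsum_congr
  intro y
  ring

lemma erg_le_mass {e f : V3 → ℝ≥0∞} (h : ∀ x, pot f x ≤ 1) : erg e f ≤ mass e := by
  rw [erg_eq_pot]
  unfold mass
  apply ENNReal.tsum_le_tsum
  intro x
  calc e x * pot f x ≤ e x * 1 := by gcongr; exact h x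
    _ = e x := mul_one _

lemma mass_mul_mass (e f : V3 → ℝ≥0∞) : ∑' x, ∑' y, e x * f y = mass e * mass f := by
  unfold mass
  rw [← ENNReal.tsum_mul_right]
  apply tsum_congr
  intro x
  rw [ENNReal.tsum_mul_left]

/-- Mutual energy of separated measures. -/
lemma erg_sep {C₀ : ℝ≥0} (hG : HGU C₀) {e f : V3 → ℝ≥0∞} {D : ℕ}
    (h : ∀ x y, e x ≠ 0 → f y ≠ 0 → D ≤ nm (x - y)) :
    erg e f * (D : ℝ≥0∞) ≤ C₀ * (mass e * mass f) := by
  rw [← mass_mul_mass]
  unfold erg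
  rw [← ENNReal.tsum_mul_right, ← ENNReal.tsum_mul_left]
  apply ENNReal.tsum_le_tsum
  intro x
  rw [← ENNReal.tsum_mul_right, ← ENNReal.tsum_mul_left]
  apply ENNReal.tsum_le_tsum
  intro y
  by_cases hx : e x = 0
  · simp [hx]
  by_cases hy : f y = 0
  · simp [hy]
  have h1 := h x y hx hy
  have h2 := hG.2 x y
  have h3 : Gr x y * (D : ℝ≥0∞) ≤ C₀ := by
    calc Gr x y * (D : ℝ≥0∞) ≤ (C₀ : ℝ≥0∞) / ((1 + nm (x - y) : ℕ) : ℝ≥0∞) *
        ((1 + nm (x - y) : ℕ) : ℝ≥0∞) := by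
          gcongr
          omega
      _ = C₀ := by
          rw [ENNReal.div_mul_cancel]
          · simp
          · exact ENNReal.natCast_ne_top _
  calc e x * f y * Gr x y * (D : ℝ≥0∞) = (e x * f y) * (Gr x y * (D : ℝ≥0∞)) := by ring
    _ ≤ (e x * f y) * C₀ := by gcongr
    _ = C₀ * (e x * f y) := mul_comm _ _

/-! ## Locality -/

/-- The nonempty loops inside a ball. -/
def Jb (z : V3) (r : ℕ) : Set Lp := {c | (∃ x, x ∈ c) ∧ ∀ x ∈ c, nm (x - z) ≤ r}

lemma jb_disj {z z' : V3} {r r' : ℕ} (h : r + r' < nm (z - z')) : Disjoint (Jb z r) (Jb z' r') := by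
  rw [Set.disjoint_left]
  rintro c ⟨⟨x, hx⟩, h1⟩ ⟨-, h2⟩
  have a1 := h1 x hx
  have a2 := h2 x hx
  have a3 := nm_tri z x z'
  rw [nm_comm z x] at a3
  omega

lemma conn_mono {S T : Set Lp} (h : ∀ c ∈ S, (∃ x, x ∈ c) → c ∈ T) {x y : V3} (hc : Conn S x y) :
    Conn T x y := by
  unfold Conn at hc ⊢
  induction hc with
  | refl => exact Relation.ReflTransGen.refl
  | tail _ h2 ih =>
    obtain ⟨c, h3, h4, h5⟩ := h2
    exact ih.tail ⟨c, h c h3 ⟨_, h4⟩, h4, h5⟩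

lemma fatAt_mono {M : ℕ} {κ : ℝ≥0} {s : ℤ} {z : V3} {n : ℕ} {K : Set V3} {S T : Set Lp} {c : Lp}
    (h : ∀ c ∈ S, c ∈ Jb z (M * n) → c ∈ T) (hf : FatAt M κ s z n K S c) :
    FatAt M κ s z n K T c := by
  obtain ⟨h1, h2, x, hx, y, hy, h3⟩ := hf
  refine ⟨⟨h c h1.1 ⟨⟨y, hy⟩, h1.2⟩, h1.2⟩, h2, x, hx, y, hy, conn_mono ?_ h3⟩
  rintro c' ⟨h4, h5⟩ h6
  exact ⟨h c' h4 ⟨h6, h5⟩, h5⟩

lemma fatAt_loc {M : ℕ} {κ : ℝ≥0} {s : ℤ} {z : V3} {n : ℕ} {K : Set V3} {N N' : Lp → ℕ}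
    (h : ∀ c ∈ Jb z (M * n), N c = N' c) (c : Lp) :
    FatAt M κ s z n K (sp N) c ↔ FatAt M κ s z n K (sp N') c := by
  constructor
  · apply fatAt_mono
    intro c' h1 h2
    have := h c' h2
    have h3 : 1 ≤ N c' := h1
    change 1 ≤ N' c'
    omega
  · apply fatAt_mono
    intro c' h1 h2
    have := h c' h2
    have h3 : 1 ≤ N' c' := h1
    change 1 ≤ N c'
    omega

lemma fatEv_loc {M : ℕ} {κ : ℝ≥0} {s : ℤ} {z : V3} {n : ℕ} {K : Set V3} {N N' : Lp → ℕ}
    (h : ∀ c ∈ Jb z (M * n), N c = N' c) :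
    FatEv M κ s z n K (sp N) ↔ FatEv M κ s z n K (sp N') := by
  unfold FatEv
  exact exists_congr (fun c => fatAt_loc h c)

/-- Independence of two local events. -/
lemma ind_two (hIND : T_IND) {Λ : Type} [Countable Λ] (q : Λ → ℝ≥0) {I J : Set Λ}
    {E F : Set (Λ → ℕ)} (hd : Disjoint I J) (hE : MeasurableSet E) (hF : MeasurableSet F)
    (h1 : ∀ N N' : Λ → ℕ, (∀ c ∈ I, N c = N' c) → (N ∈ E ↔ N' ∈ E))
    (h2 : ∀ N N' : Λ → ℕ, (∀ c ∈ J, N c = N' c) → (N ∈ F ↔ N' ∈ F)) :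
    pois q (E ∩ F) = pois q E * pois q F := by
  have h := hIND Λ q Bool (fun b => cond b I J) (fun b => cond b E F) ?_ ?_ ?_ Finset.univ
  · rw [Fintype.prod_bool] at h
    simp only [cond_true, cond_false] at h
    rw [← h]
    congr 1
    ext N
    simp only [Set.mem_inter_iff, Finset.mem_univ, Set.iInter_true, Set.mem_iInter, Bool.forall_bool,
      cond_true, cond_false]
    tauto
  · intro i j hij
    cases i <;> cases j
    · exact absurd rfl hij
    · exact hd.symm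
    · exact hd
    · exact absurd rfl hij
  · intro i
    cases i
    · exact hF
    · exact hE
  · intro i
    cases i
    · exact h2
    · exact h1

end Pool.Agent.H96.LP
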