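import Pool.Agent.H96.LP.Sb

/-!
# Row STP, part 3: the random measure and the hitting lemma at a general centre
-/

set_option autoImplicit false

open MeasureTheory ProbabilityTheory Filter Topology
open scoped ENNReal NNReal

namespace Pool.Agent.H96.LP

open Pool.Agent.H62.LP

/-! ## Finite sums of measures -/

lemma mass_sum {ι : Type} (t : Finset ι) (F : ι → V3 → ℝ≥0∞) :
    mass (fun x => ∑ p ∈ t, F p x) = ∑ p ∈ t, mass (F p) := by
  unfold mass
  exact Summable.tsum_finsetSum (fun _ _ => ENNReal.summable)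

lemma erg_sum_left {ι : Type} (t : Finset ι) (F : ι → V3 → ℝ≥0∞) (f : V3 → ℝ≥0∞) :
    erg (fun x => ∑ p ∈ t, F p x) f = ∑ p ∈ t, erg (F p) f := by
  unfold erg
  rw [← Summable.tsum_finsetSum (fun _ _ => ENNReal.summable)]
  apply tsum_congr
  intro x
  rw [← Summable.tsum_finsetSum (fun _ _ => ENNReal.summable)]
  apply tsum_congr
  intro y
  rw [Finset.sum_mul, Finset.sum_mul]

lemma erg_sum_right {ι : Type} (t : Finset ι) (e : V3 → ℝ≥0∞) (F : ι → V3 → ℝ≥0∞) :
    erg e (fun x => ∑ p ∈ t, F p x) = ∑ p ∈ t, erg e (F p) := by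
  unfold erg
  rw [← Summable.tsum_finsetSum (fun _ _ => ENNReal.summable)]
  apply tsum_congr
  intro x
  rw [← Summable.tsum_finsetSum (fun _ _ => ENNReal.summable)]
  apply tsum_congr
  intro y
  rw [Finset.mul_sum, Finset.sum_mul]

lemma mass_smul (c : ℝ≥0∞) (f : V3 → ℝ≥0∞) : mass (fun x => c * f x) = c * mass f := by
  unfold mass
  exact ENNReal.tsum_mul_left

lemma erg_smul (c d : ℝ≥0∞) (e f : V3 → ℝ≥0∞) :
    erg (fun x => c * e x) (fun x => d * f x) = c * d * erg e f := by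
  unfold erg
  rw [← ENNReal.tsum_mul_left]
  apply tsum_congr
  intro x
  rw [← ENNReal.tsum_mul_left]
  apply tsum_congr
  intro y
  ring

open Classical in
/-- The summand. -/
noncomputable def cf {Ω : Type} [MeasurableSpace Ω] (P : Measure Ω) (A : ℕ → ℕ → Set Ω) (a : ℝ≥0)
    (ω : Ω) (i k : ℕ) : ℝ≥0∞ := if ω ∈ A i k then (a : ℝ≥0∞) / P (A i k) else 0

/-- The random measure. -/
noncomputable def em {Ω : Type} [MeasurableSpace Ω] (P : Measure Ω) (I : ℕ) (N : ℕ → ℕ)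
    (A : ℕ → ℕ → Set Ω) (a : ℝ≥0) (W : ℕ → ℕ → Ω → V3 → ℝ≥0∞) (ω : Ω) (x : V3) : ℝ≥0∞ :=
  ∑ i ∈ Finset.Icc 1 I, ∑ k ∈ Finset.Icc 1 (N i), cf P A a ω i k * W i k ω x

lemma mass_em {Ω : Type} [MeasurableSpace Ω] (P : Measure Ω) (I : ℕ) (N m : ℕ → ℕ)
    (A : ℕ → ℕ → Set Ω) (a κ : ℝ≥0) (W : ℕ → ℕ → Ω → V3 → ℝ≥0∞)
    (hW : ∀ i k ω, ω ∈ A i k → mass (W i k ω) = κ * m i) (ω : Ω) :
    mass (em P I N A a W ω) = WW P I N m A a κ ω := by
  unfold em WW
  rw [mass_sum]
  apply Finset.sum_congr rfl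
  intro i _
  rw [mass_sum]
  apply Finset.sum_congr rfl
  intro k _
  rw [mass_smul]
  unfold cf
  by_cases h : ω ∈ A i k
  · rw [if_pos h, if_pos h, hW i k ω h]
  · rw [if_neg h, if_neg h, zero_mul]

lemma erg_em {Ω : Type} [MeasurableSpace Ω] (P : Measure Ω) (I : ℕ) (N : ℕ → ℕ)
    (A : ℕ → ℕ → Set Ω) (a : ℝ≥0) (W : ℕ → ℕ → Ω → V3 → ℝ≥0∞) (ω : Ω) :
    erg (em P I N A a W ω) (em P I N A a W ω) =
      EW P I N A a (fun i k j l ω => erg (W i k ω) (W j l ω)) ω := by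
  unfold em EW
  rw [erg_sum_left]
  apply Finset.sum_congr rfl
  intro i _
  rw [erg_sum_left]
  apply Finset.sum_congr rfl
  intro k _
  rw [erg_sum_right]
  apply Finset.sum_congr rfl
  intro j _
  rw [erg_sum_right]
  apply Finset.sum_congr rfl
  intro l _
  rw [erg_smul]
  unfold cf
  by_cases h : ω ∈ A i k
  · by_cases h' : ω ∈ A j l
    · rw [if_pos h, if_pos h', if_pos ⟨h, h'⟩]
    · have h3 : ¬ (ω ∈ A i k ∧ ω ∈ A j l) := fun hh => h' hh.2
      rw [if_neg h', if_neg h3, mul_zero, zero_mul]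
  · have h3 : ¬ (ω ∈ A i k ∧ ω ∈ A j l) := fun hh => h hh.1
    rw [if_neg h, if_neg h3, zero_mul, zero_mul]

lemma em_ne {Ω : Type} [MeasurableSpace Ω] {P : Measure Ω} {I : ℕ} {N : ℕ → ℕ}
    {A : ℕ → ℕ → Set Ω} {a : ℝ≥0} {W : ℕ → ℕ → Ω → V3 → ℝ≥0∞} {ω : Ω} {x : V3}
    (h : em P I N A a W ω x ≠ 0) : ∃ i k, 1 ≤ i ∧ i ≤ I ∧ 1 ≤ k ∧ k ≤ N i ∧ ω ∈ A i k ∧
      W i k ω x ≠ 0 := by
  unfold em at h
  obtain ⟨i, hi, h1⟩ := Finset.exists_ne_zero_of_sum_ne_zero h
  obtain ⟨k, hk, h2⟩ := Finset.exists_ne_zero_of_sum_ne_zero h1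
  rw [Finset.mem_Icc] at hi hk
  have h3 : cf P A a ω i k ≠ 0 := left_ne_zero_of_mul h2
  have h4 : W i k ω x ≠ 0 := right_ne_zero_of_mul h2
  refine ⟨i, k, hi.1, hi.2, hk.1, hk.2, ?_, h4⟩
  by_contra h5
  exact h3 (if_neg h5)

/-! ## Measurability of the random mass and energy -/

lemma meas_WW {Ω : Type} [MeasurableSpace Ω] (P : Measure Ω) (I : ℕ) (N m : ℕ → ℕ)
    (A : ℕ → ℕ → Set Ω) (a κ : ℝ≥0) (hA : ∀ i k, MeasurableSet (A i k)) :
    Measurable (WW P I N m A a κ) := by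
  unfold WW
  apply Finset.measurable_sum
  intro i _
  apply Finset.measurable_sum
  intro k _
  exact Measurable.ite (hA i k) measurable_const measurable_const

lemma meas_EW {Ω : Type} [MeasurableSpace Ω] (P : Measure Ω) (I : ℕ) (N : ℕ → ℕ)
    (A : ℕ → ℕ → Set Ω) (a : ℝ≥0) (X : ℕ → ℕ → ℕ → ℕ → Ω → ℝ≥0∞)
    (hA : ∀ i k, MeasurableSet (A i k)) (hX : ∀ i k j l, Measurable (X i k j l)) :
    Measurable (EW P I N A a X) := by
  unfold EW
  apply Finset.measurable_sum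
  intro i _
  apply Finset.measurable_sum
  intro k _
  apply Finset.measurable_sum
  intro j _
  apply Finset.measurable_sum
  intro l _
  exact Measurable.ite ((hA i k).inter (hA j l)) ((hX i k j l).const_mul _) measurable_const

/-! ## The hitting lemma at a general centre -/

/-- The fat loops at scale `n` near `z` which meet the support of `e`. -/
def Tz (κ : ℝ≥0) (M n : ℕ) (s : ℤ) (z : V3) (e : V3 → ℝ≥0∞) : Set Lp :=
  {c | (∀ x ∈ c, nm (x - z) ≤ M * n) ∧ (∃ x ∈ c, e x ≠ 0) ∧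
    Fat κ n {x | x ∈ c ∧ x - z ∈ Rg s n}}

/-- Translation as a bijection. -/
def tr (z : V3) : Lp ≃ Lp where
  toFun c := c.map (· + z)
  invFun c := c.map (· - z)
  left_inv c := by
    induction c using Quotient.inductionOn' with
    | h l =>
      change Cycle.map _ (Cycle.map _ (l : Cycle V3)) = (l : Cycle V3)
      rw [Cycle.map_coe, Cycle.map_coe, List.map_map]
      congr 1
      conv_rhs => rw [← List.map_id l]
      apply List.map_congr_left
      intro x _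
      simp
  right_inv c := by
    induction c using Quotient.inductionOn' with
    | h l =>
      change Cycle.map _ (Cycle.map _ (l : Cycle V3)) = (l : Cycle V3)
      rw [Cycle.map_coe, Cycle.map_coe, List.map_map]
      congr 1
      conv_rhs => rw [← List.map_id l]
      apply List.map_congr_left
      intro x _
      simp

lemma mem_tr {z x : V3} {c : Lp} : x ∈ tr z c ↔ x - z ∈ c := by
  change x ∈ Cycle.map _ c ↔ _
  rw [Cycle.mem_map]
  constructor
  · rintro ⟨y, hy, rfl⟩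
    simpa using hy
  · intro h
    exact ⟨x - z, h, by simp⟩

open Classical in
lemma hhl_at (hGTR : T_GTR) (hTRL : T_TRL) (hMUS : T_MUS) {c₁ κ : ℝ≥0} {M : ℕ}
    (h : HHL c₁ κ M) {n : ℕ} {s : ℤ} (hn : 1 ≤ n) (hs : s = 1 ∨ s = -1) (z : V3)
    (e : V3 → ℝ≥0∞) (he : ∀ x, e x ≠ 0 → nm (x - z) ≤ 2 * n) (hm : mass e ≠ ⊤) :
    c₁ * mass e ^ 2 ≤ (n : ℝ≥0∞) * erg e e *
      ∑' c : Lp, if c ∈ Tz κ M n s z e then mu c else 0 := by
  have hsh : (fun x => e (x + z)) = (fun x => e (x - -z)) := by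
    funext x; simp
  have h1 := h.2.2 n s hn hs (fun x => e (x + z)) (by
    intro x hx
    have := he _ hx
    simpa [Bl] using this) (by
    rw [hsh, mass_shift]
    exact hm)
  have h2 : mass (fun x => e (x + z)) = mass e := by rw [hsh, mass_shift]
  have h3 : erg (fun x => e (x + z)) (fun x => e (x + z)) = erg e e := by
    rw [hsh, erg_shift hGTR]
  rw [h2, h3] at h1
  have h4 : hitFat κ M n s (fun x => e (x + z)) =
      ∑' c : Lp, if c ∈ Tz κ M n s z e then mu c else 0 := by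
    have a1 := (hMUS 3).1 (fun c : Cycle V3 => if (∀ x ∈ c, x ∈ Bl 0 (M * n)) ∧
      (∃ x ∈ c, e (x + z) ≠ 0) ∧ Fat κ n {x | x ∈ c ∧ x ∈ Rg s n} then 1 else 0)
    have a2 : hitFat κ M n s (fun x => e (x + z)) = ∑' l : List V3, lw l *
        (fun c : Cycle V3 => if (∀ x ∈ c, x ∈ Bl 0 (M * n)) ∧
      (∃ x ∈ c, e (x + z) ≠ 0) ∧ Fat κ n {x | x ∈ c ∧ x ∈ Rg s n} then (1 : ℝ≥0∞) else 0)
        (l : Cycle V3) := by
      unfold hitFat
      apply tsum_congr
      intro l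
      simp only [Cycle.mem_coe_iff]
      split_ifs
      · rw [mul_one]
      · rw [mul_zero]
    rw [a2, ← a1, ← (tr z).tsum_eq (fun c => if c ∈ Tz κ M n s z e then mu c else 0)]
    apply tsum_congr
    intro c
    have b1 : mu (tr z c) = mu c := (hTRL 3 z).1 c
    have b2 : tr z c ∈ Tz κ M n s z e ↔ ((∀ x ∈ c, x ∈ Bl 0 (M * n)) ∧
      (∃ x ∈ c, e (x + z) ≠ 0) ∧ Fat κ n {x | x ∈ c ∧ x ∈ Rg s n}) := by
      unfold Tz
      simp only [Set.mem_ofPred_eq, mem_tr]
      refine and_congr ?_ (and_congr ?_ ?_)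
      · constructor
        · intro h x hx
          have := h (x + z) (by simpa using hx)
          simpa [Bl] using this
        · intro h x hx
          have := h (x - z) hx
          simpa [Bl] using this
      · constructor
        · rintro ⟨x, hx, h⟩
          exact ⟨x - z, hx, by simpa using h⟩
        · rintro ⟨x, hx, h⟩
          exact ⟨x + z, by simpa using hx, h⟩
      · have := fat_shift hGTR (κ := κ) (n := n) (A := {x | x ∈ c ∧ x ∈ Rg s n}) z
        exact this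
    rw [b1]
    by_cases hc : tr z c ∈ Tz κ M n s z e
    · rw [if_pos hc, if_pos (b2.mp hc), mul_one]
    · rw [if_neg hc, if_neg (fun h => hc (b2.mpr h)), mul_zero]
  rw [h4] at h1
  exact h1

end Pool.Agent.H96.LP
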