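import Pool.Agent.H96.LP.Sc

/-!
# Row STP, part 4: the probabilistic step
-/

set_option autoImplicit false

open MeasureTheory ProbabilityTheory Filter Topology
open scoped ENNReal NNReal

namespace Pool.Agent.H96.LP

open Pool.Agent.H62.LP

lemma good {Ω : Type} [MeasurableSpace Ω] (P : Measure Ω) [IsProbabilityMeasure P]
    {w e : Ω → ℝ≥0∞} (he : Measurable e) {u : ℝ≥0∞} {v : ℝ} (hv : 0 < v)
    (h1 : P {ω | w ω < u} ≤ 1 / 4) (h2 : ∫⁻ ω, e ω ∂P ≤ ENNReal.ofReal v) :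
    1 / 2 ≤ P {ω | u ≤ w ω ∧ e ω ≤ ENNReal.ofReal (4 * v)} := by
  have h3 : P {ω | ENNReal.ofReal (4 * v) ≤ e ω} ≤ 1 / 4 := by
    have hv4 : (0 : ℝ) < 4 * v := by linarith
    calc P {ω | ENNReal.ofReal (4 * v) ≤ e ω}
        ≤ (∫⁻ ω, e ω ∂P) / ENNReal.ofReal (4 * v) := by
          apply meas_ge_le_lintegral_div he.aemeasurable
          · simpa using hv
          · exact ENNReal.ofReal_ne_top
      _ ≤ ENNReal.ofReal v / ENNReal.ofReal (4 * v) := by gcongr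
      _ = ENNReal.ofReal (v / (4 * v)) := (ENNReal.ofReal_div_of_pos hv4).symm
      _ = ENNReal.ofReal (1 / 4) := by
          congr 1
          field_simp
      _ = 1 / 4 := by
          rw [ENNReal.ofReal_div_of_pos (by norm_num)]
          simp
  have h4 : (Set.univ : Set Ω) ⊆ {ω | w ω < u} ∪ {ω | ENNReal.ofReal (4 * v) ≤ e ω} ∪
      {ω | u ≤ w ω ∧ e ω ≤ ENNReal.ofReal (4 * v)} := by
    intro ω _
    by_cases a1 : w ω < u
    · exact Or.inl (Or.inl a1)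
    · by_cases a2 : ENNReal.ofReal (4 * v) ≤ e ω
      · exact Or.inl (Or.inr a2)
      · exact Or.inr ⟨not_lt.mp a1, (not_le.mp a2).le⟩
  have h5 : (1 : ℝ≥0∞) ≤ 1 / 4 + 1 / 4 + P {ω | u ≤ w ω ∧ e ω ≤ ENNReal.ofReal (4 * v)} := by
    calc (1 : ℝ≥0∞) = P Set.univ := measure_univ.symm
      _ ≤ P ({ω | w ω < u} ∪ {ω | ENNReal.ofReal (4 * v) ≤ e ω} ∪
          {ω | u ≤ w ω ∧ e ω ≤ ENNReal.ofReal (4 * v)}) := measure_mono h4
      _ ≤ P ({ω | w ω < u} ∪ {ω | ENNReal.ofReal (4 * v) ≤ e ω}) + _ := measure_union_le _ _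
      _ ≤ P {ω | w ω < u} + P {ω | ENNReal.ofReal (4 * v) ≤ e ω} + _ := by
          gcongr
          exact measure_union_le _ _
      _ ≤ _ := by gcongr
  have h6 : (1 / 2 : ℝ≥0∞) + 1 / 2 = 1 := ENNReal.add_halves 1
  have h7 : (1 / 4 : ℝ≥0∞) + 1 / 4 = 1 / 2 := by
    have : (1 / 4 : ℝ≥0∞) = (1 / 2) / 2 := by
      rw [div_eq_mul_inv, div_eq_mul_inv, div_eq_mul_inv, one_mul, one_mul,
        ← ENNReal.mul_inv (by norm_num) (by norm_num)]
      norm_num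
    rw [this]
    exact ENNReal.add_halves _
  rw [h7] at h5
  have h8 : (1 / 2 : ℝ≥0∞) + 1 / 2 ≤
      1 / 2 + P {ω | u ≤ w ω ∧ e ω ≤ ENNReal.ofReal (4 * v)} := h6.trans_le h5
  exact (ENNReal.add_le_add_iff_left (by simp)).mp h8

open Classical in
theorem merge_step (hMRG : T_MRG) (hVOI : T_VOI) {Λ : Type} [Countable Λ] {q : Λ → ℝ≥0}
    {I₀ : Set Λ} {E G : Set (Λ → ℕ)} {T : (Λ → ℕ) → Set Λ} {y : ℝ} {p : ℝ≥0∞} (hy : 0 ≤ y)
    (hG : p ≤ pois q G)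
    (hT : ∀ N ∈ G, ENNReal.ofReal y ≤ ∑' c, if c ∈ T N then (q c : ℝ≥0∞) else 0)
    (hE : ∀ N₁ ∈ G, ∀ N₂ : Λ → ℕ, (∃ c ∈ T N₁, 1 ≤ N₂ c) →
      (fun c => if c ∈ I₀ then N₁ c else N₂ c) ∈ E) :
    ENNReal.ofReal (1 - Real.exp (-y)) * p ≤ pois q E := by
  set φ : (Λ → ℕ) × (Λ → ℕ) → (Λ → ℕ) := fun p c => if c ∈ I₀ then p.1 c else p.2 c with hφ
  have hφm : Measurable φ := by
    rw [hφ]
    apply measurable_pi_lambda
    intro c
    by_cases hc : c ∈ I₀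
    · simp only [if_pos hc]
      exact (measurable_pi_apply c).comp measurable_fst
    · simp only [if_neg hc]
      exact (measurable_pi_apply c).comp measurable_snd
  have h1 : ((pois q).prod (pois q)).map φ = pois q := hMRG Λ q I₀
  have h2 : ((pois q).prod (pois q)) (φ ⁻¹' E) ≤ pois q E := by
    calc ((pois q).prod (pois q)) (φ ⁻¹' E) ≤ ((pois q).prod (pois q)).map φ E :=
          Measure.le_map_apply hφm.aemeasurable E
      _ = pois q E := by rw [h1]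
  refine le_trans ?_ h2
  set t := toMeasurable ((pois q).prod (pois q)) (φ ⁻¹' E) with ht
  have ht1 : MeasurableSet t := measurableSet_toMeasurable _ _
  have ht2 : φ ⁻¹' E ⊆ t := subset_toMeasurable _ _
  have ht3 : ((pois q).prod (pois q)) t = ((pois q).prod (pois q)) (φ ⁻¹' E) :=
    measure_toMeasurable _
  rw [← ht3, Measure.prod_apply ht1]
  set c₀ := ENNReal.ofReal (1 - Real.exp (-y)) with hc₀
  have h3 : G ⊆ {N₁ | c₀ ≤ pois q (Prod.mk N₁ ⁻¹' t)} := by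
    intro N₁ hN₁
    have a1 := (hVOI Λ q (T N₁) y hy).1 (hT N₁ hN₁)
    refine le_trans a1 (measure_mono ?_)
    intro N₂ hN₂
    exact ht2 (hE N₁ hN₁ N₂ hN₂)
  calc c₀ * p ≤ c₀ * pois q G := by gcongr
    _ ≤ c₀ * pois q {N₁ | c₀ ≤ pois q (Prod.mk N₁ ⁻¹' t)} := by gcongr
    _ ≤ ∫⁻ N₁, pois q (Prod.mk N₁ ⁻¹' t) ∂(pois q) :=
        mul_meas_ge_le_lintegral (measurable_measure_prodMk_left ht1) _

end Pool.Agent.H96.LP
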