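import Pool.Agent.H96.LP.Sd

/-!
# Row STP, part 5: the core of the step
-/

set_option autoImplicit false

open MeasureTheory ProbabilityTheory Filter Topology
open scoped ENNReal NNReal

namespace Pool.Agent.H96.LP

open Pool.Agent.H62.LP

lemma WW_ne_top {Ω : Type} [MeasurableSpace Ω] (P : Measure Ω) (I : ℕ) (N m : ℕ → ℕ)
    (A : ℕ → ℕ → Set Ω) (a κ : ℝ≥0) (ha : 0 < a)
    (hP : ∀ i k, 1 ≤ i → i ≤ I → 1 ≤ k → k ≤ N i → (a : ℝ≥0∞) ≤ P (A i k)) (ω : Ω) :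
    WW P I N m A a κ ω ≠ ⊤ := by
  unfold WW
  apply ENNReal.sum_ne_top.mpr
  intro i hi
  apply ENNReal.sum_ne_top.mpr
  intro k hk
  rw [Finset.mem_Icc] at hi hk
  split_ifs
  · apply ENNReal.mul_ne_top
    · apply ENNReal.div_ne_top ENNReal.coe_ne_top
      intro h0
      have := hP i k hi.1 hi.2 hk.1 hk.2
      rw [h0] at this
      have h1 : (a : ℝ≥0∞) = 0 := le_antisymm this zero_le
      rw [ENNReal.coe_eq_zero] at h1
      exact ha.ne' h1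
    · exact ENNReal.mul_ne_top ENNReal.coe_ne_top (ENNReal.natCast_ne_top _)
  · exact ENNReal.zero_ne_top

lemma one_sub_exp {y : ℝ} (h0 : 0 ≤ y) (h1 : y ≤ 1) : y / 2 ≤ 1 - Real.exp (-y) := by
  have h2 : Real.exp (-y) ≤ 1 / (1 + y) := by
    rw [Real.exp_neg, one_div]
    apply inv_anti₀ (by linarith)
    have := Real.add_one_le_exp y
    linarith
  have h3 : 1 / (1 + y) ≤ 1 - y / 2 := by
    rw [div_le_iff₀ (by linarith)]
    nlinarith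
  linarith

open Classical in
theorem core (hMRG : T_MRG) (hVOI : T_VOI) (hTRL : T_TRL) (hMUS : T_MUS) (hGTR : T_GTR)
    {c₁ κ : ℝ≥0} {M : ℕ} (hH : HHL c₁ κ M) {ε : ℝ≥0} (hε : 0 < ε)
    {I n : ℕ} {N m : ℕ → ℕ} {z : V3} {K : Set V3} {Z : ℕ → ℕ → V3} (hn : 1 ≤ n) (hI : 1 ≤ I)
    (G : Geo M I n N m z K Z) {s : ℤ} (hs : s = 1 ∨ s = -1)
    {D : ℕ → ℕ → (Lp → ℕ) → Option Lp} (hD : ∀ i k, Sel M κ s (Z i k) (m i) K (D i k))
    {a : ℝ≥0} (ha : 0 < a) (ha4 : (a : ℝ) ≤ 1 / 4)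
    (hIl : (1536 : ℝ) * M ≤ I * ε * c₁ * κ)
    (hP : ∀ i k, 1 ≤ i → i ≤ I → 1 ≤ k → k ≤ N i → (a : ℝ≥0∞) ≤ soup 3 ε (Ae M κ s K m Z i k))
    (hmA : ∀ i k, MeasurableSet (Ae M κ s K m Z i k))
    (hmX : ∀ i k j l, Measurable (Xe κ s m Z D i k j l))
    (hW : soup 3 ε {ω | WW (soup 3 ε) I N m (Ae M κ s K m Z) a κ ω <
      ENNReal.ofReal (I * a * κ * n / (12 * M))} ≤ 1 / 4)
    (hE : ∫⁻ ω, EW (soup 3 ε) I N (Ae M κ s K m Z) a (Xe κ s m Z D) ω ∂(soup 3 ε) ≤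
      ENNReal.ofReal (2 * I * a * κ * n / (3 * M))) :
    (a : ℝ≥0∞) ≤ soup 3 ε {N | FatEv M κ s z n K (sp N)} := by
  have hc₁ : (0 : ℝ) < c₁ := hH.1
  have hκ : (0 : ℝ) < κ := hH.2.1
  have hε' : (0 : ℝ) < ε := hε
  have ha' : (0 : ℝ) < a := ha
  have hM := G.hM
  have hM' : (0 : ℝ) < M := by
    have : 0 < M := by omega
    exact_mod_cast this
  have hn' : (0 : ℝ) < n := by exact_mod_cast hn
  have hI' : (0 : ℝ) < I := by exact_mod_cast hI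
  set L : ℝ := 2 * I * a * κ * n / (3 * M) with hL
  have hLpos : 0 < L := by positivity
  set L₁ : ℝ := I * a * κ * n / (12 * M) with hL₁
  have hL₁pos : 0 < L₁ := by positivity
  have hEm : Measurable (EW (soup 3 ε) I N (Ae M κ s K m Z) a (Xe κ s m Z D)) :=
    meas_EW _ _ _ _ _ _ hmA hmX
  have hP1 : IsProbabilityMeasure (soup 3 ε) := by
    unfold soup
    infer_instance
  have hgood := good (soup 3 ε) (w := WW (soup 3 ε) I N m (Ae M κ s K m Z) a κ) hEm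
    (u := ENNReal.ofReal L₁) hLpos hW hE
  set W : ℕ → ℕ → (Lp → ℕ) → V3 → ℝ≥0∞ := fun i k N => wo κ s (Z i k) (m i) (D i k N) with hWdef
  set e : (Lp → ℕ) → V3 → ℝ≥0∞ := em (soup 3 ε) I N (Ae M κ s K m Z) a W with he
  have hmass : ∀ N₁, mass (e N₁) = WW (soup 3 ε) I N m (Ae M κ s K m Z) a κ N₁ := by
    intro N₁
    apply mass_em
    intro i k ω hω
    obtain ⟨c, -, h⟩ := sel_spec (hD i k) hω
    exact h.2.1
  have herg : ∀ N₁, erg (e N₁) (e N₁) =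
      EW (soup 3 ε) I N (Ae M κ s K m Z) a (Xe κ s m Z D) N₁ := by
    intro N₁
    rw [he, erg_em]
    rfl
  -- the points of the support
  have hsupp : ∀ N₁ x, e N₁ x ≠ 0 → ∃ c, ∃ x₀ ∈ K, x ∈ c ∧ nm (x - z) ≤ 2 * n ∧
      c ∈ {c' : Lp | c' ∈ sp N₁ ∧ ∀ u ∈ c', nm (u - z) ≤ 2 * n} ∧
      Conn {c' : Lp | c' ∈ sp N₁ ∧ ∀ u ∈ c', nm (u - z) ≤ 2 * n} x₀ x := by
    intro N₁ x hx
    obtain ⟨i, k, h1, h2, h3, h4, h5, h6⟩ := em_ne hx
    obtain ⟨c, h7, h8⟩ := sel_spec (hD i k) h5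
    have h9 : x ∈ {x | x ∈ c ∧ x - Z i k ∈ Rg s (m i)} := by
      by_contra h10
      exact h6 (h8.1 x h10)
    obtain ⟨b1, b2, x₀, hx₀, y, hy, b3⟩ := h7
    have b4 : ∀ c' : Lp, c' ∈ Ins (Z i k) (M * m i) (sp N₁) →
        c' ∈ {c' : Lp | c' ∈ sp N₁ ∧ ∀ u ∈ c', nm (u - z) ≤ 2 * n} := by
      intro c' hc'
      exact ⟨hc'.1, fun u hu => G.inside h1 h2 h4 (hc'.2 u hu)⟩
    refine ⟨c, x₀, hx₀, h9.1, (b4 c b1).2 x h9.1, b4 c b1, ?_⟩
    have b5 := conn_mono (T := {c' : Lp | c' ∈ sp N₁ ∧ ∀ u ∈ c', nm (u - z) ≤ 2 * n})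
      (fun c' h _ => b4 c' h) b3
    exact Relation.ReflTransGen.tail b5 ⟨c, b4 c b1, hy, h9.1⟩
  have key := merge_step hMRG hVOI (q := inten 3 ε)
    (I₀ := {c : Lp | ∀ x ∈ c, nm (x - z) ≤ 2 * n})
    (E := {N | FatEv M κ s z n K (sp N)})
    (G := {N₁ | ENNReal.ofReal L₁ ≤ WW (soup 3 ε) I N m (Ae M κ s K m Z) a κ N₁ ∧
      EW (soup 3 ε) I N (Ae M κ s K m Z) a (Xe κ s m Z D) N₁ ≤ ENNReal.ofReal (4 * L)})
    (T := fun N₁ => Tz κ M n s z (e N₁)) (y := 4 * a) (p := 1 / 2) (by positivity) hgood ?_ ?_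
  · -- the numbers
    refine le_trans ?_ key
    have h1 := one_sub_exp (y := 4 * a) (by positivity) (by linarith)
    calc (a : ℝ≥0∞) = ENNReal.ofReal (2 * a) * (1 / 2) := by
          rw [ENNReal.ofReal_mul (by norm_num), ENNReal.ofReal_coe_nnreal]
          rw [mul_comm (ENNReal.ofReal 2), mul_assoc]
          have : ENNReal.ofReal 2 * (1 / 2) = 1 := by
            rw [one_div]
            have : ENNReal.ofReal 2 = 2 := by simp
            rw [this]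
            exact ENNReal.mul_inv_cancel (by norm_num) (by norm_num)
          rw [this, mul_one]
      _ ≤ _ := by
          gcongr
          linarith
  · -- the measure of the fat loops which hit the support
    intro N₁ hN₁
    have b1 : (∑' c, if c ∈ Tz κ M n s z (e N₁) then ((inten 3 ε c : ℝ≥0) : ℝ≥0∞) else 0) =
        ε * ∑' c : Lp, if c ∈ Tz κ M n s z (e N₁) then mu c else 0 := by
      rw [← ENNReal.tsum_mul_left]
      apply tsum_congr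
      intro c
      by_cases hc : c ∈ Tz κ M n s z (e N₁)
      · rw [if_pos hc, if_pos hc]
        unfold inten
        rw [ENNReal.coe_mul, ENNReal.coe_toNNReal ((hMUS 3).2 c)]
      · rw [if_neg hc, if_neg hc, mul_zero]
    rw [b1]
    have b2 := hhl_at hGTR hTRL hMUS hH hn hs z (e N₁)
      (fun x hx => by
        obtain ⟨c, x₀, -, -, h, -⟩ := hsupp N₁ x hx
        exact h)
      (by
        rw [hmass]
        exact WW_ne_top _ _ _ _ _ _ _ ha hP N₁)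
    rw [hmass, herg] at b2
    set Hs := ∑' c : Lp, if c ∈ Tz κ M n s z (e N₁) then mu c else 0 with hHs
    obtain ⟨g1, g2⟩ := hN₁
    have b3 : (c₁ : ℝ≥0∞) * ENNReal.ofReal L₁ ^ 2 ≤ (n : ℝ≥0∞) * ENNReal.ofReal (4 * L) * Hs := by
      calc (c₁ : ℝ≥0∞) * ENNReal.ofReal L₁ ^ 2 ≤ c₁ * WW (soup 3 ε) I N m (Ae M κ s K m Z) a κ N₁ ^ 2 := by
            gcongr
        _ ≤ _ := b2
        _ ≤ _ := by gcongr
    have b4 : ENNReal.ofReal (4 * a) * ((n : ℝ≥0∞) * ENNReal.ofReal (4 * L)) ≤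
        (ε : ℝ≥0∞) * ((c₁ : ℝ≥0∞) * ENNReal.ofReal L₁ ^ 2) := by
      have c1 : (n : ℝ≥0∞) = ENNReal.ofReal n := by simp
      have c2 : (ε : ℝ≥0∞) = ENNReal.ofReal ε := by simp
      have c3 : (c₁ : ℝ≥0∞) = ENNReal.ofReal c₁ := by simp
      rw [c1, c2, c3, ← ENNReal.ofReal_pow hL₁pos.le, ← ENNReal.ofReal_mul (by positivity),
        ← ENNReal.ofReal_mul (by positivity), ← ENNReal.ofReal_mul (by positivity),
        ← ENNReal.ofReal_mul (by positivity)]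
      apply ENNReal.ofReal_le_ofReal
      have d1 : 4 * (a : ℝ) * (n * (4 * L)) = (32 / 3) * (a ^ 2 * I * κ * n ^ 2 / M) := by
        rw [hL]
        field_simp
        ring
      have d2 : (ε : ℝ) * (c₁ * L₁ ^ 2) =
          (I * ε * c₁ * κ) * (a ^ 2 * I * κ * n ^ 2 / M) / (144 * M) := by
        rw [hL₁]
        field_simp
        ring
      rw [d1, d2, le_div_iff₀ (by positivity)]
      have d3 : 0 ≤ (a : ℝ) ^ 2 * I * κ * n ^ 2 / M := by positivity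
      nlinarith
    have b5 : ((n : ℝ≥0∞) * ENNReal.ofReal (4 * L)) * ENNReal.ofReal (4 * a) ≤
        ((n : ℝ≥0∞) * ENNReal.ofReal (4 * L)) * (ε * Hs) := by
      calc ((n : ℝ≥0∞) * ENNReal.ofReal (4 * L)) * ENNReal.ofReal (4 * a)
          = ENNReal.ofReal (4 * a) * ((n : ℝ≥0∞) * ENNReal.ofReal (4 * L)) := mul_comm _ _
        _ ≤ _ := b4
        _ ≤ (ε : ℝ≥0∞) * ((n : ℝ≥0∞) * ENNReal.ofReal (4 * L) * Hs) := by gcongr
        _ = _ := by ring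
    have b6 : ((n : ℝ≥0∞) * ENNReal.ofReal (4 * L)) ≠ 0 := by
      apply mul_ne_zero
      · simp; omega
      · simpa using hLpos
    have b7 : ((n : ℝ≥0∞) * ENNReal.ofReal (4 * L)) ≠ ⊤ :=
      ENNReal.mul_ne_top (ENNReal.natCast_ne_top _) ENNReal.ofReal_ne_top
    exact (ENNReal.mul_le_mul_iff_right b6 b7).mp b5
  · -- the new loop is fat and joined to K
    rintro N₁ - N₂ ⟨c, ⟨h1, ⟨x, hxc, hx⟩, h3⟩, h4⟩
    have hcI : ¬ (∀ x ∈ c, nm (x - z) ≤ 2 * n) := by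
      intro hall
      obtain ⟨u, hu1, hu2⟩ := fat_ne (κ := κ) hH.2.1 hn h3
      have := rg_le hs hu2
      have := hall u hu1
      omega
    obtain ⟨c', x₀, hx₀, g1, g2, g3, g4⟩ := hsupp N₁ x hx
    have hsub : ∀ c'' ∈ {c' : Lp | c' ∈ sp N₁ ∧ ∀ u ∈ c', nm (u - z) ≤ 2 * n},
        c'' ∈ Ins z (M * n) (sp (fun c => if c ∈ {c : Lp | ∀ x ∈ c, nm (x - z) ≤ 2 * n} then N₁ c
          else N₂ c)) := by
      rintro c'' ⟨k1, k2⟩
      refine ⟨?_, fun u hu => (k2 u hu).trans (by nlinarith)⟩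
      change 1 ≤ (if c'' ∈ {c : Lp | ∀ x ∈ c, nm (x - z) ≤ 2 * n} then N₁ c'' else N₂ c'')
      rw [if_pos (show c'' ∈ {c : Lp | ∀ x ∈ c, nm (x - z) ≤ 2 * n} from k2)]
      exact k1
    refine ⟨c, ⟨?_, h1⟩, h3, x₀, hx₀, x, hxc, conn_mono (fun c'' h _ => hsub c'' h) g4⟩
    change 1 ≤ (if c ∈ {c : Lp | ∀ x ∈ c, nm (x - z) ≤ 2 * n} then N₁ c else N₂ c)
    rw [if_neg (show c ∉ {c : Lp | ∀ x ∈ c, nm (x - z) ≤ 2 * n} from hcI)]
    exact h4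

end Pool.Agent.H96.LP
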